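import Pool.Agent.W606.UB.Stm

/-!
# The analysis part
-/

set_option autoImplicit false

namespace KN

namespace UB

namespace An667

open Filter Topology
open scoped Classical

noncomputable section

/-- the cube root -/
def rr (n : ℕ) : ℝ := (n : ℝ) ^ (1 / 3 : ℝ)

lemma rr_pos {n : ℕ} (hn : 1 ≤ n) : 0 < rr n := by
  unfold rr
  exact Real.rpow_pos_of_pos (by exact_mod_cast hn) _

lemma rr_ge {n : ℕ} (hn : 1 ≤ n) : 1 ≤ rr n := by
  unfold rr
  exact Real.one_le_rpow (by exact_mod_cast hn) (by norm_num)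

lemma rr_cube (n : ℕ) : (rr n) ^ 3 = n := by
  unfold rr
  rw [← Real.rpow_natCast, ← Real.rpow_mul (Nat.cast_nonneg n)]
  norm_num

lemma rr_sq (n : ℕ) : (n : ℝ) ^ (2 / 3 : ℝ) = (rr n) ^ 2 := by
  unfold rr
  rw [← Real.rpow_natCast, ← Real.rpow_mul (Nat.cast_nonneg n)]
  norm_num

lemma rr_le {n N : ℕ} (h : N ≤ 3 * n) : rr N ≤ 2 * rr n := by
  have h1 : (N : ℝ) ≤ 8 * n := by
    have h2 : (N : ℝ) ≤ 3 * n := by exact_mod_cast h
    have h3 : (0 : ℝ) ≤ n := Nat.cast_nonneg n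
    linarith
  have h2 : (N : ℝ) ^ (1 / 3 : ℝ) ≤ (8 * n : ℝ) ^ (1 / 3 : ℝ) :=
    Real.rpow_le_rpow (Nat.cast_nonneg _) h1 (by norm_num)
  have h3 : (8 * n : ℝ) ^ (1 / 3 : ℝ) = 2 * rr n := by
    rw [Real.mul_rpow (by norm_num) (Nat.cast_nonneg n)]
    have : (8 : ℝ) ^ (1 / 3 : ℝ) = 2 := by
      rw [show (8 : ℝ) = 2 ^ (3 : ℝ) by norm_num, ← Real.rpow_mul (by norm_num)]
      norm_num
    rw [this]
    rfl
  rw [h3] at h2
  exact h2

/-- the iteration -/
def it (β : ℕ) (n : ℕ) : ℕ → ℕ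
  | 0 => n
  | j + 1 => 2 * (it β n j + β)

lemma it_add (β n : ℕ) : ∀ j, it β n j + 2 * β = 2 ^ j * (n + 2 * β) := by
  intro j
  induction j with
  | zero => simp [it]
  | succ j ih =>
    have : it β n (j + 1) = 2 * (it β n j + β) := rfl
    rw [this, pow_succ]
    calc 2 * (it β n j + β) + 2 * β = 2 * (it β n j + 2 * β) := by ring
      _ = _ := by rw [ih]; ring

lemma it_ge (β n : ℕ) : ∀ j, n ≤ it β n j := by
  intro j
  induction j with
  | zero => exact le_rfl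
  | succ j ih =>
    have : it β n (j + 1) = 2 * (it β n j + β) := rfl
    omega

lemma core (A : ℕ → ℝ) (hA : ∀ n, 0 ≤ A n) (g : ℝ) (hg : 1 < g)
    (hupper : ∀ τ : ℝ, 0 < τ → ∃ C : ℝ, ∀ n : ℕ, A n ≤ C * ((1 + τ) * g) ^ n)
    (β N₀ : ℕ) (c : ℝ) (hc : 0 < c)
    (h : ∀ n : ℕ, N₀ ≤ n → c * (n : ℝ) ^ (2 / 3 : ℝ) * (A n) ^ 2 ≤ n * A (2 * (n + β))) :
    ∃ N₁ : ℕ, ∀ n : ℕ, N₁ ≤ n → c / 2 * A n ≤ rr n * g ^ (n + 2 * β) := by
  refine ⟨N₀ + 2 * β + 1, fun n hn => ?_⟩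
  -- one step
  have step : ∀ m : ℕ, n ≤ m → (c / 2 * A m / rr m) ^ 2 ≤
      c / 2 * A (2 * (m + β)) / rr (2 * (m + β)) := by
    intro m hm
    have hm1 : 1 ≤ m := by omega
    have hr := rr_pos hm1
    have hrN : 0 < rr (2 * (m + β)) := rr_pos (by omega)
    have hr2 : rr (2 * (m + β)) ≤ 2 * rr m := rr_le (by omega)
    have h0 := h m (by omega)
    rw [rr_sq] at h0
    have h1 : c * (A m) ^ 2 ≤ rr m * A (2 * (m + β)) := by
      have h2 : (rr m) ^ 2 * (c * (A m) ^ 2) ≤ (rr m) ^ 2 * (rr m * A (2 * (m + β))) := by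
        calc (rr m) ^ 2 * (c * (A m) ^ 2) = c * rr m ^ 2 * A m ^ 2 := by ring
          _ ≤ m * A (2 * (m + β)) := h0
          _ = (rr m) ^ 3 * A (2 * (m + β)) := by rw [rr_cube]
          _ = _ := by ring
      exact le_of_mul_le_mul_left h2 (by positivity)
    rw [div_pow, div_le_div_iff₀ (by positivity) hrN]
    calc (c / 2 * A m) ^ 2 * rr (2 * (m + β)) ≤ (c / 2 * A m) ^ 2 * (2 * rr m) :=
          mul_le_mul_of_nonneg_left hr2 (by positivity)
      _ = c / 2 * rr m * (c * (A m) ^ 2) := by ring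
      _ ≤ c / 2 * rr m * (rr m * A (2 * (m + β))) :=
          mul_le_mul_of_nonneg_left h1 (by positivity)
      _ = c / 2 * A (2 * (m + β)) * rr m ^ 2 := by ring
  have hb0 : 0 ≤ c / 2 * A n / rr n := by
    have := hA n
    have := rr_pos (n := n) (by omega)
    positivity
  have iter : ∀ j : ℕ, (c / 2 * A n / rr n) ^ (2 ^ j) ≤
      c / 2 * A (it β n j) / rr (it β n j) := by
    intro j
    induction j with
    | zero => simp [it]
    | succ j ih =>
      have h1 := step (it β n j) (it_ge β n j)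
      have h2 : (c / 2 * A n / rr n) ^ (2 ^ (j + 1)) = ((c / 2 * A n / rr n) ^ (2 ^ j)) ^ 2 := by
        rw [← pow_mul, pow_succ]
      rw [h2]
      refine le_trans ?_ h1
      exact pow_le_pow_left₀ (by positivity) ih 2
  by_contra hcon
  push Not at hcon
  have hr := rr_pos (n := n) (by omega)
  set m := n + 2 * β with hm
  have hm1 : 1 ≤ m := by omega
  have hgm : (0 : ℝ) < g ^ m := by positivity
  have hx : g ^ m < c / 2 * A n / rr n := by
    rw [lt_div_iff₀ hr]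
    linarith
  -- choice of tau
  obtain ⟨τ, hτ, hτx⟩ : ∃ τ : ℝ, 0 < τ ∧ ((1 + τ) * g) ^ m < c / 2 * A n / rr n := by
    have hcont : Tendsto (fun τ : ℝ => ((1 + τ) * g) ^ m) (𝓝[>] 0) (𝓝 (g ^ m)) := by
      have : Continuous (fun τ : ℝ => ((1 + τ) * g) ^ m) := by fun_prop
      have h2 := (this.tendsto 0).mono_left (nhdsWithin_le_nhds (s := Set.Ioi (0 : ℝ)))
      simpa using h2
    have hev := hcont.eventually (gt_mem_nhds hx)
    obtain ⟨τ, h1, h2⟩ := (hev.and self_mem_nhdsWithin).exists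
    exact ⟨τ, h2, h1⟩
  obtain ⟨C, hC⟩ := hupper τ hτ
  set y := ((1 + τ) * g) ^ m with hy
  set x := c / 2 * A n / rr n with hxd
  have hbase : 1 ≤ (1 + τ) * g := by nlinarith
  have hy0 : 0 < y := by positivity
  have hCn : 0 ≤ C := by
    have h1 := hC 0
    have h2 := hA 0
    simp only [pow_zero, mul_one] at h1
    linarith
  have key : ∀ j : ℕ, (x / y) ^ (2 ^ j) ≤ c / 2 * C := by
    intro j
    have h1 := iter j
    have hj1 : 1 ≤ it β n j := le_trans (by omega) (it_ge β n j)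
    have h2 : c / 2 * A (it β n j) / rr (it β n j) ≤ c / 2 * A (it β n j) := by
      apply div_le_self _ (rr_ge hj1)
      have := hA (it β n j)
      positivity
    have h3 : A (it β n j) ≤ C * y ^ (2 ^ j) := by
      refine le_trans (hC _) (mul_le_mul_of_nonneg_left ?_ hCn)
      rw [hy, ← pow_mul]
      refine pow_le_pow_right₀ hbase ?_
      have := it_add β n j
      rw [mul_comm m, hm, ← this]
      omega
    rw [div_pow, div_le_iff₀ (by positivity)]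
    calc x ^ 2 ^ j ≤ c / 2 * A (it β n j) := le_trans h1 h2
      _ ≤ c / 2 * (C * y ^ (2 ^ j)) := mul_le_mul_of_nonneg_left h3 (by positivity)
      _ = _ := by ring
  have hxy : 1 < x / y := by
    rw [one_lt_div hy0]
    exact hτx
  obtain ⟨k, hk⟩ := pow_unbounded_of_one_lt (c / 2 * C) hxy
  have h1 := key k
  have h2 : (x / y) ^ k ≤ (x / y) ^ (2 ^ k) :=
    pow_le_pow_right₀ hxy.le (Nat.lt_two_pow_self).le
  linarith

lemma core2 (A : ℕ → ℝ) (hA : ∀ n, 0 ≤ A n) (g : ℝ) (hg : 1 < g)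
    (hupper : ∀ τ : ℝ, 0 < τ → ∃ C : ℝ, ∀ n : ℕ, A n ≤ C * ((1 + τ) * g) ^ n)
    (β N₀ : ℕ) (c : ℝ) (hc : 0 < c)
    (h : ∀ n : ℕ, N₀ ≤ n → c * (n : ℝ) ^ (2 / 3 : ℝ) * (A n) ^ 2 ≤ n * A (2 * (n + β))) :
    ∃ C : ℝ, ∀ n : ℕ, 1 ≤ n →
      A n / (2 * n) ≤ C * (n : ℝ) ^ (-(2 / 3) : ℝ) * g ^ n := by
  obtain ⟨N₁, hN⟩ := core A hA g hg hupper β N₀ c hc h
  have hg0 : 0 < g := by linarith
  refine ⟨g ^ (2 * β) / c + ∑ k ∈ Finset.range N₁, A k / (2 * k) * (rr k) ^ 2 / g ^ k,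
    fun n hn => ?_⟩
  have hn0 : (0 : ℝ) < n := by exact_mod_cast hn
  have hr := rr_pos hn
  have hneg : (n : ℝ) ^ (-(2 / 3) : ℝ) = 1 / (rr n) ^ 2 := by
    rw [Real.rpow_neg hn0.le, rr_sq, one_div]
  have hterm : ∀ k : ℕ, 0 ≤ A k / (2 * k) * (rr k) ^ 2 / g ^ k := by
    intro k
    have := hA k
    positivity
  have hsum : 0 ≤ ∑ k ∈ Finset.range N₁, A k / (2 * k) * (rr k) ^ 2 / g ^ k :=
    Finset.sum_nonneg fun k _ => hterm k
  rw [hneg]
  have hgn : 0 < g ^ n := by positivity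
  by_cases hcase : N₁ ≤ n
  · have h1 := hN n hcase
    have h2 : A n / (2 * n) ≤ g ^ (2 * β) / c * (1 / (rr n) ^ 2) * g ^ n := by
      rw [← rr_cube n]
      have h3 : g ^ (2 * β) / c * (1 / (rr n) ^ 2) * g ^ n =
          (rr n * g ^ (n + 2 * β) * 2 / c) / (2 * rr n ^ 3) := by
        rw [pow_add]
        field_simp
      rw [h3]
      refine div_le_div_of_nonneg_right ?_ (by positivity)
      rw [le_div_iff₀ hc]
      linarith
    refine le_trans h2 ?_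
    refine mul_le_mul_of_nonneg_right ?_ hgn.le
    refine mul_le_mul_of_nonneg_right ?_ (by positivity)
    linarith
  · push Not at hcase
    have h1 : A n / (2 * n) * (rr n) ^ 2 / g ^ n ≤
        ∑ k ∈ Finset.range N₁, A k / (2 * k) * (rr k) ^ 2 / g ^ k :=
      Finset.single_le_sum (f := fun k : ℕ => A k / (2 * k) * (rr k) ^ 2 / g ^ k)
        (fun k _ => hterm k) (Finset.mem_range.2 hcase)
    have h2 : A n / (2 * n) = A n / (2 * n) * (rr n) ^ 2 / g ^ n * (1 / (rr n) ^ 2) * g ^ n := by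
      field_simp
    rw [h2]
    refine mul_le_mul_of_nonneg_right ?_ hgn.le
    refine mul_le_mul_of_nonneg_right ?_ (by positivity)
    have : 0 ≤ g ^ (2 * β) / c := by positivity
    linarith

end

end An667

theorem ana_main667
    (hupper : ∀ τ : ℝ, 0 < τ → ∃ C : ℝ, ∀ n : ℕ, (a U n : ℝ) ≤ C * ((1 + τ) * gr U) ^ n)
    (hg : 1 < gr U) : P_ana := by
  intro β N₀ c hc h
  obtain ⟨C, hC⟩ := An667.core2 (fun n => (a U n : ℝ)) (fun n => Nat.cast_nonneg _) (gr U) hg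
    hupper β N₀ c hc h
  exact ⟨C, fun n hn => hC n hn⟩

end UB

end KN
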