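import Pool.Agent.W606.UB.Stm
import Pool.Agent.H246K2.All2

/-!
# Upper bound for the number of unknotted polygons: composition
-/

set_option autoImplicit false

namespace KN

namespace UB

open Finset Filter Topology
open scoped Classical

noncomputable section

theorem husame (w : List Dir) (h : U w) : Same (vl w) sq := GEN.u_same h

theorem compose (hglue : P_glue) (hcount : P_count) (hmult : P_mult) (hproj : P_proj)
    (hana : P_ana) : ∃ C : ℝ, ∀ n : ℕ, 1 ≤ n →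
      pq U n ≤ C * (n : ℝ) ^ (-(2 / 3) : ℝ) * gr U ^ n := by
  obtain ⟨β, lam, K₀, hG⟩ := hglue
  obtain ⟨C, hC⟩ := hcount β lam K₀ hG
  obtain ⟨C', N₀, hC'⟩ := hmult β lam
  refine hana β (max (max lam N₀) 4) (1 / (3 * ((C : ℝ) + 1) * ((C' : ℝ) + 1))) (by positivity) ?_
  intro n hn
  have h1 : lam ≤ n := le_trans (le_trans (le_max_left _ _) (le_max_left _ _)) hn
  have h2 : N₀ ≤ n := le_trans (le_trans (le_max_right _ _) (le_max_left _ _)) hn
  have h4 : 4 ≤ n := le_trans (le_max_right _ _) hn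
  have hn0 : (0 : ℝ) < n := by exact_mod_cast (by omega : 0 < n)
  have e1 := hproj n h4
  have e2 : ((∑ w ∈ K U n, (((path w).map Prod.snd).toFinset.card : ℝ))) * (a U n : ℝ) ≤
      C * (n : ℝ) ^ 2 * ((K U (2 * (n + β))).filter (J β lam n)).card := by
    exact_mod_cast hC n h1
  have e3 : (n : ℝ) * ((K U (2 * (n + β))).filter (J β lam n)).card ≤
      C' * (a U (2 * (n + β)) : ℝ) := by
    exact_mod_cast hC' n h2
  set Z : ℝ := (((K U (2 * (n + β))).filter (J β lam n)).card : ℝ) with hZ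
  set A : ℝ := (a U n : ℝ) with hA
  set B : ℝ := (a U (2 * (n + β)) : ℝ) with hB
  have hA0 : 0 ≤ A := by positivity
  have hB0 : 0 ≤ B := by positivity
  have hZ0 : 0 ≤ Z := by positivity
  have hCr : (0 : ℝ) ≤ C := by positivity
  have hCr' : (0 : ℝ) ≤ C' := by positivity
  have f1 : (n : ℝ) ^ (2 / 3 : ℝ) * A ^ 2 ≤ 3 * (C * (n : ℝ) ^ 2 * Z) := by
    calc (n : ℝ) ^ (2 / 3 : ℝ) * A ^ 2 = ((n : ℝ) ^ (2 / 3 : ℝ) * A) * A := by ring
      _ ≤ (3 * ∑ w ∈ K U n, (((path w).map Prod.snd).toFinset.card : ℝ)) * A :=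
        mul_le_mul_of_nonneg_right e1 hA0
      _ = 3 * ((∑ w ∈ K U n, (((path w).map Prod.snd).toFinset.card : ℝ)) * A) := by ring
      _ ≤ _ := by linarith
  have f2 : (n : ℝ) ^ 2 * Z ≤ n * (C' * B) := by
    calc (n : ℝ) ^ 2 * Z = n * (n * Z) := by ring
      _ ≤ _ := mul_le_mul_of_nonneg_left e3 hn0.le
  have f3 : (n : ℝ) ^ (2 / 3 : ℝ) * A ^ 2 ≤ 3 * C * C' * (n * B) := by
    have := mul_le_mul_of_nonneg_left f2 (by positivity : (0 : ℝ) ≤ 3 * C)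
    linarith
  have f4 : 3 * (C : ℝ) * C' * (n * B) ≤ (3 * ((C : ℝ) + 1) * ((C' : ℝ) + 1)) * (n * B) := by
    have hnB : 0 ≤ (n : ℝ) * B := by positivity
    refine mul_le_mul_of_nonneg_right ?_ hnB
    nlinarith
  have hpos : (0 : ℝ) < 3 * ((C : ℝ) + 1) * ((C' : ℝ) + 1) := by positivity
  calc 1 / (3 * ((C : ℝ) + 1) * ((C' : ℝ) + 1)) * (n : ℝ) ^ (2 / 3 : ℝ) * A ^ 2
      = ((n : ℝ) ^ (2 / 3 : ℝ) * A ^ 2) / (3 * ((C : ℝ) + 1) * ((C' : ℝ) + 1)) := by ring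
    _ ≤ ((3 * ((C : ℝ) + 1) * ((C' : ℝ) + 1)) * (n * B)) /
        (3 * ((C : ℝ) + 1) * ((C' : ℝ) + 1)) :=
      div_le_div_of_nonneg_right (f3.trans f4) hpos.le
    _ = n * B := by field_simp

/-- consequence for the exponent -/
theorem exponent (h : ∃ C : ℝ, ∀ n : ℕ, 1 ≤ n →
      pq U n ≤ C * (n : ℝ) ^ (-(2 / 3) : ℝ) * gr U ^ n) (hg : 0 < gr U) (A α : ℝ) (hA : 0 < A)
    (hlim : Tendsto (fun j : ℕ => pq U (2 * j) / ((2 * j : ℝ) ^ (α - 3) * gr U ^ (2 * j))) atTop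
      (𝓝 A)) : α ≤ 7 / 3 := by
  obtain ⟨C, hC⟩ := h
  by_contra hcon
  push Not at hcon
  have h1 : ∀ᶠ j : ℕ in atTop,
      pq U (2 * j) / ((2 * j : ℝ) ^ (α - 3) * gr U ^ (2 * j)) ≤
        C * (2 * j : ℝ) ^ (-(α - 7 / 3)) := by
    filter_upwards [eventually_ge_atTop 1] with j hj
    have hj' : (0 : ℝ) < 2 * j := by
      have : (1 : ℝ) ≤ j := by exact_mod_cast hj
      linarith
    have h2 := hC (2 * j) (by omega)
    push_cast at h2
    have hgp : 0 < gr U ^ (2 * j) := pow_pos hg _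
    have hp : 0 < (2 * j : ℝ) ^ (α - 3) := Real.rpow_pos_of_pos hj' _
    rw [div_le_iff₀ (mul_pos hp hgp)]
    have e : (2 * j : ℝ) ^ (-(α - 7 / 3)) * (2 * j : ℝ) ^ (α - 3) = (2 * j : ℝ) ^ (-(2 / 3) : ℝ) := by
      rw [← Real.rpow_add hj']
      congr 1
      ring
    calc pq U (2 * j) ≤ C * (2 * j : ℝ) ^ (-(2 / 3) : ℝ) * gr U ^ (2 * j) := h2
      _ = C * ((2 * j : ℝ) ^ (-(α - 7 / 3)) * (2 * j : ℝ) ^ (α - 3)) * gr U ^ (2 * j) := by rw [e]
      _ = _ := by ring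
  have h0 : Tendsto (fun j : ℕ => C * (2 * j : ℝ) ^ (-(α - 7 / 3))) atTop (𝓝 (C * 0)) := by
    refine Tendsto.const_mul C ?_
    refine (tendsto_rpow_neg_atTop (by linarith)).comp ?_
    exact Tendsto.const_mul_atTop (by norm_num) tendsto_natCast_atTop_atTop
  rw [mul_zero] at h0
  have := le_of_tendsto_of_tendsto hlim h0 h1
  linarith

end

end UB

end KN
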