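import Pool.Agent.W606.UB.Stm

set_option autoImplicit false

/-! UB-GEO: the inequalities. -/

namespace KN

namespace UB

open Finset Filter Topology

namespace W733Geo

theorem mul_abs_le {a b A B : ℤ} (ha : |a| ≤ A) (hb : |b| ≤ B) : a * b ≤ A * B := by
  have h1 : a * b ≤ |a| * |b| := by rw [← abs_mul]; exact le_abs_self _
  have h2 : |a| * |b| ≤ A * B :=
    mul_le_mul ha hb (abs_nonneg _) (le_trans (abs_nonneg _) ha)
  linarith

theorem comp_le (p q x y h P Q E B : ℤ) (hp : |p| ≤ P) (hq : |q| ≤ Q) (hx : |x| ≤ 1) (hy : |y| ≤ 1)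
    (hh : |h| ≤ E) (hB : P + Q + E ≤ B) : |p * x - q * y + h| ≤ B := by
  have h1 : |p * x| ≤ P := by
    rw [abs_mul]
    have := mul_le_mul hp hx (abs_nonneg _) (le_trans (abs_nonneg _) hp)
    linarith
  have h2 : |q * y| ≤ Q := by
    rw [abs_mul]
    have := mul_le_mul hq hy (abs_nonneg _) (le_trans (abs_nonneg _) hq)
    linarith
  have a1 := abs_le.1 h1
  have a2 := abs_le.1 h2
  have a3 := abs_le.1 hh
  rw [abs_le]
  constructor <;> linarith [a1.1, a1.2, a2.1, a2.2, a3.1, a3.2]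

theorem core (N e f η : Z3) (p q P Q E B M K : ℤ)
    (hN1 : |N.1| ≤ M) (hN2 : |N.2.1| ≤ M) (hN3 : |N.2.2| ≤ M)
    (he1 : |e.1| ≤ 1) (he2 : |e.2.1| ≤ 1) (he3 : |e.2.2| ≤ 1)
    (hf1 : |f.1| ≤ 1) (hf2 : |f.2.1| ≤ 1) (hf3 : |f.2.2| ≤ 1)
    (hη1 : |η.1| ≤ E) (hη2 : |η.2.1| ≤ E) (hη3 : |η.2.2| ≤ E)
    (hp : |p| ≤ P) (hq : |q| ≤ Q) (hB : P + Q + E ≤ B) (hK : 0 ≤ K) (hpK : -K ≤ p) (hqK : -K ≤ q)
    (hm1 : M - 700 ≤ dt N f) (hm2 : dt N f ≤ M) (hm1' : M - 700 ≤ -dt N e) (hm2' : -dt N e ≤ M) :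
    dt (N + p • e - q • f + η) (N + p • e - q • f + η) ≤
      dt N N - 2 * (p + q) * (M - 700) + 2800 * K + 6 * (E * M) + 3 * B ^ 2 := by
  have hid : dt (N + p • e - q • f + η) (N + p • e - q • f + η) =
      dt N N - 2 * p * (-dt N e) - 2 * q * dt N f + 2 * dt N η +
        ((p * e.1 - q * f.1 + η.1) ^ 2 + (p * e.2.1 - q * f.2.1 + η.2.1) ^ 2 +
          (p * e.2.2 - q * f.2.2 + η.2.2) ^ 2) := by
    simp only [dt, Prod.fst_add, Prod.snd_add, Prod.fst_sub, Prod.snd_sub, Prod.smul_fst,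
      Prod.smul_snd, smul_eq_mul]
    ring
  have hc1 := comp_le p q e.1 f.1 η.1 P Q E B hp hq he1 hf1 hη1 hB
  have hc2 := comp_le p q e.2.1 f.2.1 η.2.1 P Q E B hp hq he2 hf2 hη2 hB
  have hc3 := comp_le p q e.2.2 f.2.2 η.2.2 P Q E B hp hq he3 hf3 hη3 hB
  have hs : ∀ c : ℤ, |c| ≤ B → c ^ 2 ≤ B ^ 2 := by
    intro c hc
    rw [← sq_abs c]
    exact pow_le_pow_left₀ (abs_nonneg _) hc 2
  have s1 := hs _ hc1
  have s2 := hs _ hc2
  have s3 := hs _ hc3
  have hd : dt N η ≤ 3 * (E * M) := by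
    have d1 := mul_abs_le hN1 hη1
    have d2 := mul_abs_le hN2 hη2
    have d3 := mul_abs_le hN3 hη3
    simp only [dt]
    linarith
  have hP : -(700 * K) ≤ p * (-dt N e - (M - 700)) := by
    have a1 : 0 ≤ (p + K) * (-dt N e - (M - 700)) := mul_nonneg (by linarith) (by linarith)
    have a2 : 0 ≤ K * (700 - (-dt N e - (M - 700))) := mul_nonneg hK (by linarith)
    linarith
  have hQ : -(700 * K) ≤ q * (dt N f - (M - 700)) := by
    have a1 : 0 ≤ (q + K) * (dt N f - (M - 700)) := mul_nonneg (by linarith) (by linarith)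
    have a2 : 0 ≤ K * (700 - (dt N f - (M - 700))) := mul_nonneg hK (by linarith)
    linarith
  rw [hid]
  linarith

theorem vec_le (d : Dir) : |(vec d).1| ≤ 1 ∧ |(vec d).2.1| ≤ 1 ∧ |(vec d).2.2| ≤ 1 := by
  cases d <;> simp [vec]

end W733Geo

open W733Geo

theorem geo_main : P_geo := by
  intro κ
  refine ⟨100 * (κ + 1), by omega, by omega, 10000 * (κ + 1), ?_⟩
  intro R hR N d d' a b hN1 hN2 hd hd' ha hb s hs
  obtain ⟨k, hk⟩ : ∃ k : ℤ, k = (κ : ℤ) := ⟨_, rfl⟩
  have hk0 : 0 ≤ k := by rw [hk]; exact Int.natCast_nonneg κ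
  have hT : ((100 * (κ + 1) : ℕ) : ℤ) = 100 * (k + 1) := by rw [hk]; push_cast; ring
  obtain ⟨r, hr⟩ : ∃ r : ℤ, r = (R : ℤ) := ⟨_, rfl⟩
  have hr0 : 10000 * (k + 1) ≤ r := by rw [hr, hk]; exact_mod_cast hR
  rw [hT] at hs ⊢
  simp only [near, ← hk, Prod.fst_zero, Prod.snd_zero, sub_zero] at ha hb ⊢
  rw [← hr] at hN1 hN2 ⊢
  obtain ⟨ha1, ha2, ha3⟩ := ha
  obtain ⟨hb1, hb2, hb3⟩ := hb
  -- the parameter M
  obtain ⟨M, hM⟩ : ∃ M : ℤ, M = min (dt N (vec d)) (-dt N (vec d')) + 700 := ⟨_, rfl⟩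
  have hg : ∀ g : Dir, dt N (vec g) ≤ M := by
    intro g
    rw [hM]
    rcases min_choice (dt N (vec d)) (-dt N (vec d')) with h | h
    · rw [h]; exact hd g
    · rw [h]; exact hd' g
  have hx : |N.1| ≤ M := by
    have h1 := hg .xp
    have h2 := hg .xm
    simp only [dt, vec] at h1 h2
    rw [abs_le]; constructor <;> linarith
  have hy : |N.2.1| ≤ M := by
    have h1 := hg .yp
    have h2 := hg .ym
    simp only [dt, vec] at h1 h2
    rw [abs_le]; constructor <;> linarith
  have hz : |N.2.2| ≤ M := by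
    have h1 := hg .zp
    have h2 := hg .zm
    simp only [dt, vec] at h1 h2
    rw [abs_le]; constructor <;> linarith
  have hm1 : M - 700 ≤ dt N (vec d) := by rw [hM]; have := min_le_left (dt N (vec d)) (-dt N (vec d')); linarith
  have hm1' : M - 700 ≤ -dt N (vec d') := by rw [hM]; have := min_le_right (dt N (vec d)) (-dt N (vec d')); linarith
  have hm2 : dt N (vec d) ≤ M := hg d
  have hm2' : -dt N (vec d') ≤ M := by
    have h := hg (neg d')
    have e : dt N (vec (neg d')) = -dt N (vec d') := by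
      cases d' <;> simp [dt, vec, neg]
    linarith
  have hM0 : 0 ≤ M := le_trans (abs_nonneg _) hx
  have hRM : r < 2 * M := by
    by_contra hc
    push Not at hc
    have s1 : N.1 ^ 2 ≤ M ^ 2 := by rw [← sq_abs]; exact pow_le_pow_left₀ (abs_nonneg _) hx 2
    have s2 : N.2.1 ^ 2 ≤ M ^ 2 := by rw [← sq_abs]; exact pow_le_pow_left₀ (abs_nonneg _) hy 2
    have s3 : N.2.2 ^ 2 ≤ M ^ 2 := by rw [← sq_abs]; exact pow_le_pow_left₀ (abs_nonneg _) hz 2
    have h4 : (2 * M) ^ 2 ≤ r ^ 2 := pow_le_pow_left₀ (by linarith) hc 2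
    simp only [dt] at hN1
    nlinarith
  have hMk : 5000 * (k + 1) < M := by linarith
  obtain ⟨e1, e2, e3⟩ := vec_le d'
  obtain ⟨f1, f2, f3⟩ := vec_le d
  have hkk : 0 ≤ (M - 5000 * (k + 1)) * k := mul_nonneg (by linarith) hk0
  have hε1 : |(b - a - ((1, 0, 0) : Z3)).1| ≤ 2 * k + 1 := by
    have h1 := abs_le.1 ha1
    have h2 := abs_le.1 hb1
    simp only [Prod.fst_sub]
    rw [abs_le]; constructor <;> linarith [h1.1, h1.2, h2.1, h2.2]
  have hε2 : |(b - a - ((1, 0, 0) : Z3)).2.1| ≤ 2 * k + 1 := by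
    have h1 := abs_le.1 ha2
    have h2 := abs_le.1 hb2
    simp only [Prod.fst_sub, Prod.snd_sub]
    rw [abs_le]; constructor <;> linarith [h1.1, h1.2, h2.1, h2.2]
  have hε3 : |(b - a - ((1, 0, 0) : Z3)).2.2| ≤ 2 * k + 1 := by
    have h1 := abs_le.1 ha3
    have h2 := abs_le.1 hb3
    simp only [Prod.snd_sub]
    rw [abs_le]; constructor <;> linarith [h1.1, h1.2, h2.1, h2.2]
  obtain ⟨ε, hε⟩ : ∃ ε : Z3, ε = b - a - ((1, 0, 0) : Z3) := ⟨_, rfl⟩
  rw [← hε] at hε1 hε2 hε3
  have hT0 : (0 : ℤ) ≤ 100 * (k + 1) := by linarith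
  constructor
  · have h := core N (vec d') (vec d) ε (100 * (k + 1)) (100 * (k + 1)) (100 * (k + 1))
      (100 * (k + 1)) (2 * k + 1) (202 * k + 201) M k hx hy hz e1 e2 e3 f1 f2 f3 hε1 hε2 hε3
      (by rw [abs_of_nonneg hT0]) (by rw [abs_of_nonneg hT0]) (by linarith) hk0 (by linarith)
      (by linarith) hm1 hm2 hm1' hm2'
    have hse : s = N + (100 * (k + 1)) • vec d' - (100 * (k + 1)) • vec d + ε := by
      rw [hs, hε]; abel
    rw [← hse] at h
    have hfin : 2 * (100 * (k + 1) + 100 * (k + 1)) * (M - 700) =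
        400 * (k * M) + 400 * M - 280000 * k - 280000 := by ring
    have hfin2 : (2 * k + 1) * M = 2 * (k * M) + M := by ring
    have hfin3 : (202 * k + 201) ^ 2 = 40804 * (k * k) + 81204 * k + 40401 := by ring
    have hkk2 : 5000 * (k * k) + 5000 * k ≤ k * M := by linarith
    rw [hfin, hfin2, hfin3] at h
    linarith [mul_nonneg hk0 hk0]
  · intro i hi0 hi1 δ hδ
    obtain ⟨hδ1, hδ2, hδ3⟩ := hδ
    constructor
    · have h := core N (vec d') (vec d) (ε + δ) (100 * (k + 1)) (100 * (k + 1) - i)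
        (100 * (k + 1)) (100 * (k + 1)) (3 * k + 1) (203 * k + 201) M k hx hy hz e1 e2 e3 f1 f2 f3
        (by
          rw [Prod.fst_add]
          exact (abs_add_le _ _).trans (by linarith))
        (by
          rw [Prod.snd_add, Prod.fst_add]
          exact (abs_add_le _ _).trans (by linarith))
        (by
          rw [Prod.snd_add, Prod.snd_add]
          exact (abs_add_le _ _).trans (by linarith))
        (by rw [abs_of_nonneg hT0]) (by rw [abs_le]; constructor <;> linarith) (by linarith) hk0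
        (by linarith) (by linarith) hm1 hm2 hm1' hm2'
      have hse : s + i • vec d + δ =
          N + (100 * (k + 1)) • vec d' - (100 * (k + 1) - i) • vec d + (ε + δ) := by
        rw [hs, hε, sub_smul]; abel
      rw [← hse] at h
      have hpq : (198 * k + 200) * (M - 700) ≤
          2 * (100 * (k + 1) + (100 * (k + 1) - i)) * (M - 700) := by
        have : 0 ≤ (100 * (k + 1) + k - i) * (M - 700) := mul_nonneg (by linarith) (by linarith)
        linarith
      have hfin : (198 * k + 200) * (M - 700) =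
          198 * (k * M) + 200 * M - 138600 * k - 140000 := by ring
      have hfin2 : (3 * k + 1) * M = 3 * (k * M) + M := by ring
      have hfin3 : (203 * k + 201) ^ 2 = 41209 * (k * k) + 81606 * k + 40401 := by ring
      have hkk2 : 5000 * (k * k) + 5000 * k ≤ k * M := by linarith
      rw [hfin] at hpq
      rw [hfin2, hfin3] at h
      linarith [mul_nonneg hk0 hk0]
    · have h := core N (vec d') (vec d) (ε - δ) (100 * (k + 1) - i) (100 * (k + 1))
        (100 * (k + 1)) (100 * (k + 1)) (3 * k + 1) (203 * k + 201) M k hx hy hz e1 e2 e3 f1 f2 f3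
        (by
          rw [Prod.fst_sub]
          exact (abs_sub _ _).trans (by linarith))
        (by
          rw [Prod.snd_sub, Prod.fst_sub]
          exact (abs_sub _ _).trans (by linarith))
        (by
          rw [Prod.snd_sub, Prod.snd_sub]
          exact (abs_sub _ _).trans (by linarith))
        (by rw [abs_le]; constructor <;> linarith) (by rw [abs_of_nonneg hT0]) (by linarith) hk0
        (by linarith) (by linarith) hm1 hm2 hm1' hm2'
      have hse : s - i • vec d' - δ =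
          N + (100 * (k + 1) - i) • vec d' - (100 * (k + 1)) • vec d + (ε - δ) := by
        rw [hs, hε, sub_smul]; abel
      rw [← hse] at h
      have hpq : (198 * k + 200) * (M - 700) ≤
          2 * ((100 * (k + 1) - i) + 100 * (k + 1)) * (M - 700) := by
        have : 0 ≤ (100 * (k + 1) + k - i) * (M - 700) := mul_nonneg (by linarith) (by linarith)
        linarith
      have hfin : (198 * k + 200) * (M - 700) =
          198 * (k * M) + 200 * M - 138600 * k - 140000 := by ring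
      have hfin2 : (3 * k + 1) * M = 3 * (k * M) + M := by ring
      have hfin3 : (203 * k + 201) ^ 2 = 41209 * (k * k) + 81606 * k + 40401 := by ring
      have hkk2 : 5000 * (k * k) + 5000 * k ≤ k * M := by linarith
      rw [hfin] at hpq
      rw [hfin2, hfin3] at h
      linarith [mul_nonneg hk0 hk0]

end UB

end KN
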