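import Pool.Agent.W606.UB.Stm

set_option autoImplicit false

namespace KN

namespace UB

open Finset Filter Topology
open scoped Classical

noncomputable section

/-- the rotation by 180 degrees about the second axis -/
abbrev rho : Dir → Dir := rt .xm .zm

def R0 (p : Z3) : Z3 := (-p.1, p.2.1, -p.2.2)

theorem Rp_eq (p : Z3) : Rp .xm .zm p = R0 p := by
  unfold R0
  simp [Rp, cr, vec]

theorem R0_R0 (p : Z3) : R0 (R0 p) = p := by
  unfold R0
  simp

theorem R0_add (p q : Z3) : R0 (p + q) = R0 p + R0 q := by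
  unfold R0
  ext <;> simp <;> ring

theorem rho_rho (e : Dir) : rho (rho e) = e := by cases e <;> decide

theorem rho_map (w : List Dir) : (w.map rho).map rho = w := by
  rw [List.map_map]
  have : (rho ∘ rho) = id := funext rho_rho
  rw [this, List.map_id]

theorem vec_rho (d : Dir) : vec (rho d) = R0 (vec d) := by cases d <;> decide

theorem hperp : perp Dir.xm Dir.zm := by decide

theorem pos_rho (h8 : T_rtc) (w : List Dir) : pos (w.map rho) = R0 (pos w) := by
  rw [← Rp_eq]
  exact ((h8 _ _ hperp).2.2.1 w).1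

theorem path_rho (h8 : T_rtc) (w : List Dir) : path (w.map rho) = (path w).map R0 := by
  have : R0 = Rp .xm .zm := funext fun p => (Rp_eq p).symm
  rw [this]
  exact ((h8 _ _ hperp).2.2.1 w).2

theorem U_same {w w' : List Dir} (h : Same (vl w) (vl w')) (hU : U w) : U w' := by
  rcases hU with hU | hU
  · exact Or.inl ((Relation.EqvGen.symm _ _ h).trans _ _ _ hU)
  · exact Or.inr ((Relation.EqvGen.symm _ _ h).trans _ _ _ hU)

theorem rot_mem {w : List Dir} (hw : pos w = 0) {k : ℕ} (hk : k ≤ w.length) {x : Z3}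
    (hx : x ∈ path (w.rotate k)) : x + pos (w.drop k) ∈ path w := by
  rw [List.rotate_eq_drop_append_take hk] at hx
  obtain ⟨i, hi, rfl⟩ := (mem_path_iff _ _).1 hx
  have h0 : pos (w.take k) + pos (w.drop k) = 0 := by
    rw [← pos_append, List.take_append_drop, hw]
  rcases le_or_gt i (w.drop k).length with h | h
  · rw [List.drop_append_of_le_length h, pos_append, add_assoc, h0, add_zero, List.drop_drop]
    rw [List.length_drop] at h
    exact (mem_path_iff _ _).2 ⟨k + i, by omega, rfl⟩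
  · have e : (w.drop k ++ w.take k).drop i = (w.take k).drop (i - (w.drop k).length) := by
      rw [List.drop_append, List.drop_eq_nil_of_le h.le, List.nil_append]
    rw [e, ← pos_append]
    rw [List.length_append, List.length_take, List.length_drop] at hi
    rw [List.length_drop] at h ⊢
    have e2 : (w.take k).drop (i - (w.length - k)) ++ w.drop k =
        w.drop (i - (w.length - k)) := by
      have h5 : i - (w.length - k) ≤ (w.take k).length := by
        rw [List.length_take]
        omega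
      calc _ = ((w.take k) ++ w.drop k).drop (i - (w.length - k)) :=
            (List.drop_append_of_le_length h5).symm
        _ = _ := by rw [List.take_append_drop]
    rw [e2]
    exact (mem_path_iff _ _).2 ⟨_, by omega, rfl⟩

/-- vertices of the `S` part -/
theorem mid_mem {w A B C S : List Dir} (hw : pos w = 0) {k : ℕ} (hk : k ≤ w.length)
    (h : w.rotate k = C ++ S) {i : ℕ} (hA : A.length ≤ i)
    (hB : i + B.length ≤ (A ++ S ++ B).length) :
    pos ((A ++ S ++ B).drop i) - pos B + pos (w.drop k) ∈ path w := by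
  simp only [List.length_append] at hB
  have e : (A ++ S ++ B).drop i = S.drop (i - A.length) ++ B := by
    rw [List.append_assoc, List.drop_append, List.drop_eq_nil_of_le hA, List.nil_append,
      List.drop_append_of_le_length (by omega)]
  rw [e, pos_append, add_sub_cancel_right]
  apply rot_mem hw hk
  rw [h]
  have e5 : (C ++ S).drop (C.length + (i - A.length)) = S.drop (i - A.length) := by
    rw [List.drop_append, List.drop_eq_nil_of_le (by omega), List.nil_append,
      Nat.add_sub_cancel_left]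
  rw [← e5]
  refine (mem_path_iff _ _).2 ⟨C.length + (i - A.length), by
    rw [List.length_append]; omega, rfl⟩

theorem dt_R0 (p q : Z3) : dt (R0 p) (R0 q) = dt p q := by
  unfold dt R0
  ring

theorem drop_join {l1 v : List Dir} {i : ℕ} (hi : i ≤ l1.length) :
    pos ((join l1 v []).drop i) = pos (l1.drop i) + pos v := by
  unfold join
  rw [List.drop_append_of_le_length hi, pos_append]
  congr 1
  rw [pos, pos_append]
  have : pos [Dir.xp] + vec .xm = 0 := by decide
  rw [add_assoc, this, add_zero]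

theorem drop_join' {l1 v : List Dir} {i : ℕ} (hi : i ≤ v.length) :
    pos ((join l1 v []).drop (l1.length + 1 + i)) = pos (v.drop i) + (1, 0, 0) := by
  unfold join
  rw [List.drop_append, List.drop_eq_nil_of_le (by omega), List.nil_append]
  have e : l1.length + 1 + i - l1.length = i + 1 := by omega
  rw [e, List.drop_succ_cons, List.drop_append_of_le_length hi, pos_append]
  congr 1

theorem dt_expand (a b : Z3) : dt (a - b) (a - b) = dt a a - 2 * dt a b + dt b b := by
  unfold dt
  simp only [Prod.fst_sub, Prod.snd_sub]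
  ring

theorem dt_neg (a : Z3) : dt (-a) (-a) = dt a a := by
  unfold dt
  simp only [Prod.fst_neg, Prod.snd_neg]
  ring

theorem cs3 (a b : Z3) : dt a b ^ 2 ≤ dt a a * dt b b := by
  unfold dt
  nlinarith [sq_nonneg (a.1 * b.2.1 - a.2.1 * b.1), sq_nonneg (a.1 * b.2.2 - a.2.2 * b.1),
    sq_nonneg (a.2.1 * b.2.2 - a.2.2 * b.2.1)]

/-- the second polygon: the dock seen from the left -/
theorem dock2 (h7 : T_rt) (h8 : T_rtc) (h9 : S_words) {T κ lam β R : ℕ}
    (hD : Dock T κ lam β R) {w : List Dir} (hS : SAP w) (hU : U w) (hlen : lam ≤ w.length)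
    (x N : Z3) (hx : x ∈ path w) (hN1 : (R : ℤ) ^ 2 < dt N N)
    (hN2 : dt N N ≤ ((R : ℤ) + 1) ^ 2) (hc : ∀ p ∈ path w, -2 * dt N (p - x) ≤ dt (p - x) (p - x))
    (hN0 : 0 ≤ N.1) :
    ∃ (A B C S : List Dir) (k : ℕ) (r' : Z3) (d : Dir),
      k < w.length ∧ A.length ≤ lam ∧ B.length ≤ lam ∧ w.rotate k = C ++ S ∧
      (A ++ S ++ B).length + 1 = w.length + β ∧
      SAP (.zm :: (A ++ S ++ B)) ∧ U (.zm :: (A ++ S ++ B)) ∧
      pos (w.drop k) = r' + pos B ∧
      (∀ g : Dir, dt N (vec g) ≤ - dt N (vec d) + 700) ∧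
      near κ (r' + (0, 0, 1)) (x + (T : ℤ) • vec d) ∧
      ∀ p ∈ path (A ++ S ++ B), p + r' ∈ path w ∨
        (0 ≤ p.1 ∧ ∃ i : ℤ, 0 ≤ i ∧ i ≤ T + κ ∧ near κ (p + r') (x + i • vec d)) := by
  have hS' : SAP (w.map rho) := (h7 _ _ hperp w hS).1
  have hU' : U (w.map rho) := U_same (h7 _ _ hperp w hS).2 hU
  have hdt : dt (R0 (-N)) (R0 (-N)) = dt N N := by rw [dt_R0, dt_neg]
  have hcont : Cont R {p | p ∈ path (w.map rho)} (R0 x) (R0 (-N)) := by
    refine ⟨?_, by rw [hdt]; exact hN1, by rw [hdt]; exact hN2, ?_⟩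
    · change R0 x ∈ path (w.map rho)
      rw [path_rho h8]
      exact List.mem_map_of_mem hx
    · intro p hp
      change p ∈ path (w.map rho) at hp
      rw [path_rho h8, List.mem_map] at hp
      obtain ⟨y, hy, rfl⟩ := hp
      have e : R0 y - R0 x = R0 (y - x) := by
        unfold R0
        ext <;> simp <;> ring
      rw [e, dt_R0, dt_R0]
      have h := hc y hy
      have e2 : dt (-N) (y - x) = - dt N (y - x) := by
        unfold dt
        simp only [Prod.fst_neg, Prod.snd_neg]
        ring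
      rw [e2]
      linarith
  obtain ⟨A, B, C, S, k, e, d, hk, hA, hB, hrot, hl, hSAP, hUU, hpos, hdir, hnear, hpts⟩ :=
    hD (w.map rho) hS' hU' (by rw [List.length_map]; exact hlen) (R0 x) (R0 (-N)) hcont
      (by unfold R0; simpa using hN0)
  have hmap : ((A ++ S ++ B) ++ [Dir.zp]).map rho =
      (A.map rho ++ S.map rho ++ B.map rho) ++ [.zm] := by
    simp only [List.map_append]
    rfl
  have hSv : SAP ((A.map rho ++ S.map rho ++ B.map rho) ++ [.zm]) := by
    rw [← hmap]; exact (h7 _ _ hperp _ hSAP).1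
  have hUv : U ((A.map rho ++ S.map rho ++ B.map rho) ++ [.zm]) := by
    rw [← hmap]; exact U_same (h7 _ _ hperp _ hSAP).2 hUU
  have hrv : ((A.map rho ++ S.map rho ++ B.map rho) ++ [Dir.zm]).rotate
      (A.map rho ++ S.map rho ++ B.map rho).length =
      .zm :: (A.map rho ++ S.map rho ++ B.map rho) := by
    rw [List.rotate_append_length_eq]
    rfl
  have hw9 := (h9 _ hSv).2.2 (A.map rho ++ S.map rho ++ B.map rho).length
  rw [hrv] at hw9
  refine ⟨A.map rho, B.map rho, C.map rho, S.map rho, k, R0 e - (0, 0, 1), rho d,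
    by rw [List.length_map] at hk; exact hk, by rw [List.length_map]; exact hA,
    by rw [List.length_map]; exact hB, ?_, ?_, hw9.1, U_same hw9.2 hUv, ?_, ?_, ?_, ?_⟩
  · have h := congrArg (List.map rho) hrot
    rw [List.map_rotate, rho_map, List.map_append] at h
    exact h
  · simp only [List.length_append, List.length_map] at hl ⊢
    exact hl
  · have h := congrArg R0 hpos
    rw [← List.map_drop, pos_rho h8, R0_R0, R0_add, R0_add] at h
    rw [h, pos_rho h8]
    have : R0 (0, 0, 1) = -(0, 0, 1) := by decide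
    rw [this]
    ring
  · intro g
    have h := hdir (rho (neg g))
    have e1 : dt (R0 (-N)) (vec (rho (neg g))) = dt N (vec g) := by
      rw [vec_rho, dt_R0, vec_neg]
      unfold dt
      simp only [Prod.fst_neg, Prod.snd_neg]
      ring
    have e2 : dt (R0 (-N)) (vec d) = - dt N (vec (rho d)) := by
      rw [vec_rho]
      unfold dt R0
      simp only [Prod.fst_neg, Prod.snd_neg]
      ring
    rw [e1, e2] at h
    exact h
  · have e1 : R0 e - (0, 0, 1) + (0, 0, 1) = R0 e := by ring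
    rw [e1, vec_rho]
    obtain ⟨n1, n2, n3⟩ := hnear
    unfold R0 at n1 n2 n3 ⊢
    simp only [Prod.fst_add, Prod.snd_add, Prod.smul_fst, Prod.smul_snd, smul_eq_mul]
      at n1 n2 n3
    rw [abs_le] at n1 n3
    refine ⟨?_, ?_, ?_⟩
    · simp only [Prod.fst_add, Prod.snd_add, Prod.smul_fst, Prod.smul_snd, smul_eq_mul]
      rw [abs_le]
      exact ⟨by linarith [n1.1, n1.2], by linarith [n1.1, n1.2]⟩
    · simp only [Prod.fst_add, Prod.snd_add, Prod.smul_fst, Prod.smul_snd, smul_eq_mul]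
      exact n2
    · simp only [Prod.fst_add, Prod.snd_add, Prod.smul_fst, Prod.smul_snd, smul_eq_mul]
      rw [abs_le]
      exact ⟨by linarith [n3.1, n3.2], by linarith [n3.1, n3.2]⟩
  · intro p hp
    have hp2 : p + (0, 0, -1) ∈ path ((A.map rho ++ S.map rho ++ B.map rho) ++ [.zm]) := by
      obtain ⟨i, hi, rfl⟩ := (mem_path_iff _ _).1 hp
      refine (mem_path_iff _ _).2 ⟨i, by rw [List.length_append]; omega, ?_⟩
      rw [List.drop_append_of_le_length hi, pos_append]
      rfl
    rw [← hmap, path_rho h8, List.mem_map] at hp2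
    obtain ⟨y, hy, hye⟩ := hp2
    have hpe : p + (R0 e - (0, 0, 1)) = R0 (y + e) := by
      rw [R0_add, hye]
      have : ((0, 0, -1) : Z3) = -(0, 0, 1) := by decide
      rw [this]
      ring
    rcases hpts y hy with h | ⟨h1, i, hi0, hi1, hn⟩
    · left
      rw [hpe]
      rw [path_rho h8, List.mem_map] at h
      obtain ⟨z, hz, hze⟩ := h
      rw [← hze, R0_R0]
      exact hz
    · right
      refine ⟨?_, i, hi0, hi1, ?_⟩
      · have := congrArg Prod.fst hye
        unfold R0 at this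
        simp at this
        linarith
      · rw [hpe, vec_rho]
        obtain ⟨n1, n2, n3⟩ := hn
        unfold R0 at n1 n2 n3 ⊢
        simp only [Prod.fst_add, Prod.snd_add, Prod.smul_fst, Prod.smul_snd, smul_eq_mul]
          at n1 n2 n3
        rw [abs_le] at n1 n3
        refine ⟨?_, ?_, ?_⟩
        · simp only [Prod.fst_add, Prod.snd_add, Prod.smul_fst, Prod.smul_snd, smul_eq_mul]
          rw [abs_le]
          exact ⟨by linarith [n1.1, n1.2], by linarith [n1.1, n1.2]⟩
        · simp only [Prod.fst_add, Prod.snd_add, Prod.smul_fst, Prod.smul_snd, smul_eq_mul]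
          exact n2
        · simp only [Prod.fst_add, Prod.snd_add, Prod.smul_fst, Prod.smul_snd, smul_eq_mul]
          rw [abs_le]
          exact ⟨by linarith [n3.1, n3.2], by linarith [n3.1, n3.2]⟩

lemma dt_bd {v : Z3} {M : ℤ} (hM : 0 ≤ M) (h : dt v v ≤ M ^ 2) :
    |v.1| ≤ M ∧ |v.2.1| ≤ M ∧ |v.2.2| ≤ M := by
  obtain ⟨s1, s2, s3⟩ := v
  simp only [dt] at h ⊢
  have q1 := mul_self_nonneg s1
  have q2 := mul_self_nonneg s2
  have q3 := mul_self_nonneg s3
  refine ⟨abs_le_of_sq_le_sq ?_ hM, abs_le_of_sq_le_sq ?_ hM,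
    abs_le_of_sq_le_sq ?_ hM⟩
  · rw [pow_two s1]; linarith
  · rw [pow_two s2]; linarith
  · rw [pow_two s3]; linarith

lemma dt_nn (v : Z3) : 0 ≤ dt v v := by
  obtain ⟨s1, s2, s3⟩ := v
  simp only [dt]
  have q1 := mul_self_nonneg s1
  have q2 := mul_self_nonneg s2
  have q3 := mul_self_nonneg s3
  linarith

set_option maxHeartbeats 4000000 in
theorem glue_main (h1 : P_dock) (h2 : P_LLd) (h3 : P_slide) (h4 : P_geo) (h5 : P_join)
    (h6 : P_sap) (h7 : T_rt) (h8 : T_rtc) (h9 : S_words) : P_glue := by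
  obtain ⟨κ, hκ⟩ := h1
  obtain ⟨T, hTκ, hT22, R₀, hR⟩ := h4 (κ + 2)
  obtain ⟨lam, β, hD⟩ := hκ T (by omega)
  obtain ⟨R, hRR, hR1, hLL⟩ := h2 T 9 (by omega) (max R₀ 2000)
  have hD' := hD R (le_trans (le_max_right _ _) hRR) hLL
  have hgeo := hR R (le_trans (le_max_left _ _) hRR)
  refine ⟨β, lam, R + 2, fun n hn w1 hw1 w2 hw2 t ht => ?_⟩
  obtain ⟨hW1, hS1, hU1⟩ := Finset.mem_filter.1 hw1
  obtain ⟨hW2, hS2, hU2⟩ := Finset.mem_filter.1 hw2
  have hl1 : w1.length = n := mem_W.1 hW1
  have hl2 : w2.length = n := mem_W.1 hW2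
  -- slide
  have hex : ∃ p ∈ (path w1).toFinset, ∃ q ∈ (path w2).toFinset, p.2 = q.2 + t := by
    rw [List.mem_toFinset, List.mem_map] at ht
    obtain ⟨p, hp, hpt⟩ := ht
    refine ⟨p, List.mem_toFinset.2 hp, 0, List.mem_toFinset.2 (zero_mem_path w2), ?_⟩
    rw [hpt]
    simp
  obtain ⟨s, p, q, hp, hq, hN1, hN2, hN0, hsl⟩ := h3 R _ _ t hex
  rw [List.mem_toFinset] at hp hq
  have hsl' : ∀ p' ∈ path w1, ∀ q' ∈ path w2, ∀ j : ℤ, 0 ≤ j →
      dt (q + (s, t) - p) (q + (s, t) - p) ≤
        dt (q' + (s, t) + (j, 0, 0) - p') (q' + (s, t) + (j, 0, 0) - p') :=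
    fun p' hp' q' hq' j hj => hsl p' (List.mem_toFinset.2 hp') q' (List.mem_toFinset.2 hq') j hj
  clear hsl
  generalize hNd : q + ((s, t) : Z3) - p = N at *
  -- first dock
  have hc1 : Cont R {x | x ∈ path w1} p N := by
    refine ⟨hp, hN1, hN2, fun p' hp' => ?_⟩
    have h := hsl' p' hp' q hq 0 le_rfl
    have e : q + ((s, t) : Z3) + (0, 0, 0) - p' = N - (p' - p) := by
      rw [← hNd]
      have : ((0, 0, 0) : Z3) = 0 := rfl
      rw [this]
      ring
    rw [e, dt_expand] at h
    linarith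
  obtain ⟨A, B, C, S, k, e, d, hk, hA, hB, hrot, hl, hSAP, hUU, hpos, hdir, hnear, hpts⟩ :=
    hD' w1 hS1 hU1 (by omega) p N hc1 hN0
  -- second dock
  have hc2 : ∀ q' ∈ path w2, -2 * dt N (q' - q) ≤ dt (q' - q) (q' - q) := by
    intro q' hq'
    have h := hsl' p hp q' hq' 0 le_rfl
    have e : q' + ((s, t) : Z3) + (0, 0, 0) - p = N - (q - q') := by
      rw [← hNd]
      have : ((0, 0, 0) : Z3) = 0 := rfl
      rw [this]
      ring
    rw [e, dt_expand] at h
    have e2 : dt N (q - q') = - dt N (q' - q) := by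
      unfold dt
      simp only [Prod.fst_sub, Prod.snd_sub]
      ring
    have e3 : dt (q - q') (q - q') = dt (q' - q) (q' - q) := by
      unfold dt
      simp only [Prod.fst_sub, Prod.snd_sub]
      ring
    rw [e2, e3] at h
    linarith
  obtain ⟨A', B', C', S', k', r', d', hk', hA', hB', hrot', hl', hSAP', hUU', hpos', hdir',
    hnear', hpts'⟩ := dock2 h7 h8 h9 hD' hS2 hU2 (by omega) q N hq hN1 hN2 hc2 hN0
  -- the shift
  obtain ⟨a, ha⟩ : ∃ a : Z3, a = e - p - (T : ℤ) • vec d := ⟨_, rfl⟩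
  obtain ⟨b, hb⟩ : ∃ b : Z3, b = r' - q - (T : ℤ) • vec d' := ⟨_, rfl⟩
  have na : near (κ + 2) a 0 := by
    obtain ⟨n1, n2, n3⟩ := hnear
    rw [ha]
    unfold near
    simp only [Prod.fst_add, Prod.snd_add, Prod.fst_sub, Prod.snd_sub, Prod.smul_fst,
      Prod.smul_snd, smul_eq_mul, Prod.fst_zero, Prod.snd_zero] at n1 n2 n3 ⊢
    rw [abs_le] at n1 n2 n3 ⊢
    rw [abs_le, abs_le]
    push_cast
    refine ⟨⟨?_, ?_⟩, ⟨?_, ?_⟩, ⟨?_, ?_⟩⟩ <;> linarith [n1.1, n1.2, n2.1, n2.2, n3.1, n3.2]
  have nb : near (κ + 2) b 0 := by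
    obtain ⟨n1, n2, n3⟩ := hnear'
    rw [hb]
    unfold near
    simp only [Prod.fst_add, Prod.snd_add, Prod.fst_sub, Prod.snd_sub, Prod.smul_fst,
      Prod.smul_snd, smul_eq_mul, Prod.fst_zero, Prod.snd_zero] at n1 n2 n3 ⊢
    rw [abs_le] at n1 n2 n3 ⊢
    rw [abs_le, abs_le]
    push_cast
    refine ⟨⟨?_, ?_⟩, ⟨?_, ?_⟩, ⟨?_, ?_⟩⟩ <;> linarith [n1.1, n1.2, n2.1, n2.2, n3.1, n3.2]
  obtain ⟨sv, hsv⟩ : ∃ sv : Z3, sv = N + (T : ℤ) • vec d' - (T : ℤ) • vec d + b - a -
    (1, 0, 0) := ⟨_, rfl⟩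
  obtain ⟨g1, g2⟩ := hgeo N d d' a b hN1 hN2 hdir hdir' na nb sv hsv
  have hsv2 : sv = ((s, t) : Z3) + r' - e - (1, 0, 0) := by
    rw [hsv, hb, ha, ← hNd]
    abel
  -- separation
  have hXS : XS (A ++ S ++ B) (A' ++ S' ++ B') := by
    refine ⟨hSAP, hSAP', fun P hP Q hQ hPQ => ?_⟩
    by_contra hlt
    push Not at hlt
    obtain ⟨j, hj⟩ : ∃ j : ℤ, j = P.1 - 1 - Q.1 := ⟨_, rfl⟩
    have hj0 : 0 ≤ j := by omega
    have hPe : P = Q + (1, 0, 0) + (j, 0, 0) := by
      ext
      · simp only [Prod.fst_add]; omega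
      · have := congrArg Prod.fst hPQ
        simp only [Prod.fst_add, Prod.snd_add]
        simpa using this
      · have := congrArg Prod.snd hPQ
        simp only [Prod.snd_add]
        simpa using this
    rcases hpts P hP with hP' | ⟨hP0, i, hi0, hi1, hnP⟩
    · rcases hpts' Q hQ with hQ' | ⟨hQ0, i, hi0, hi1, hnQ⟩
      · have h := hsl' _ hP' _ hQ' j hj0
        have e1 : Q + r' + ((s, t) : Z3) + (j, 0, 0) - (P + e) = sv := by
          rw [hsv2, hPe]
          abel
        rw [e1] at h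
        have : (0 : ℤ) ≤ R := Int.natCast_nonneg R
        linarith
      · obtain ⟨δ, hδ⟩ : ∃ δ : Z3, δ = Q + r' - (q + i • vec d') := ⟨_, rfl⟩
        have hδn : near (κ + 2) δ 0 := by
          obtain ⟨n1, n2, n3⟩ := hnQ
          rw [hδ]
          unfold near
          simp only [Prod.fst_sub, Prod.snd_sub, Prod.fst_zero, Prod.snd_zero, sub_zero]
          push_cast
          exact ⟨by linarith, by linarith, by linarith⟩
        have h := hsl' _ hP' q hq j hj0
        have e1 : q + ((s, t) : Z3) + (j, 0, 0) - (P + e) = sv - i • vec d' - δ := by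
          rw [hsv2, hPe, hδ]
          abel
        rw [e1] at h
        have := (g2 i hi0 (by push_cast; linarith) δ hδn).2
        linarith
    · rcases hpts' Q hQ with hQ' | ⟨hQ0, i', hi0', hi1', hnQ⟩
      · obtain ⟨δ, hδ⟩ : ∃ δ : Z3, δ = P + e - (p + i • vec d) := ⟨_, rfl⟩
        have hδn : near (κ + 2) δ 0 := by
          obtain ⟨n1, n2, n3⟩ := hnP
          rw [hδ]
          unfold near
          simp only [Prod.fst_sub, Prod.snd_sub, Prod.fst_zero, Prod.snd_zero, sub_zero]
          push_cast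
          exact ⟨by linarith, by linarith, by linarith⟩
        have h := hsl' p hp _ hQ' j hj0
        have e1 : Q + r' + ((s, t) : Z3) + (j, 0, 0) - p = sv + i • vec d + δ := by
          rw [hsv2, hδ, hPe]
          abel
        rw [e1] at h
        have := (g2 i hi0 (by push_cast; linarith) δ hδn).1
        linarith
      · omega
  have hlen1 : (A ++ S ++ B).length = n + β - 1 := by omega
  have hlen2 : (A' ++ S' ++ B').length = n + β - 1 := by omega
  have hnb : 1 ≤ n + β := by omega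
  have hjlen : (join (A ++ S ++ B) (A' ++ S' ++ B') []).length = 2 * (n + β) := by
    have : (join (A ++ S ++ B) (A' ++ S' ++ B') []).length =
        (A ++ S ++ B).length + ((A' ++ S' ++ B').length + 1 + 1) := by
      generalize A ++ S ++ B = X
      generalize A' ++ S' ++ B' = Y
      unfold join
      simp only [List.length_append, List.length_cons, List.length_nil]
    rw [this, hlen1, hlen2]
    omega
  have hposv : pos (A' ++ S' ++ B') = (0, 0, 1) := by
    have h := hSAP'.2.1
    rw [pos] at h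
    have h' : vec Dir.zm = -(0, 0, 1) := by decide
    rw [h'] at h
    exact eq_of_sub_eq_zero (by rw [sub_eq_add_neg]; exact h)
  have hsvb : |sv.1| ≤ (R : ℤ) + 1 ∧ |sv.2.1| ≤ (R : ℤ) + 1 ∧ |sv.2.2| ≤ (R : ℤ) + 1 := by
    have h0 : dt sv sv ≤ ((R : ℤ) + 1) ^ 2 := by
      have : (0 : ℤ) ≤ R := Int.natCast_nonneg R
      linarith
    have hR0 : (0 : ℤ) ≤ (R : ℤ) + 1 := by
      have : (0 : ℤ) ≤ R := Int.natCast_nonneg R
      linarith
    exact dt_bd hR0 h0
  refine ⟨A, B, C, S, A', B', C', S', k, k', by omega, by omega, hA, hB, hA', hB', hrot, hrot',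
    by omega, by omega, ?_, ⟨hjlen, ?_, ?_⟩, ?_⟩
  · exact Finset.mem_filter.2 ⟨mem_W.2 hjlen, h6 _ _ hXS, h5 _ _ hXS hUU hUU'⟩
  · unfold jw
    rw [← hlen1, drop_join le_rfl, List.drop_length, hposv]
    rfl
  · intro i j hi1 hi2 hj1 hj2
    obtain ⟨j', rfl⟩ : ∃ j', j = (A ++ S ++ B).length + 1 + j' :=
      ⟨j - ((A ++ S ++ B).length + 1), by omega⟩
    have m1 := mid_mem (A := A) (B := B) (S := S) hS1.2.1 (by omega) hrot (i := i) (by omega)
      (by omega)
    have m2 := mid_mem (A := A') (B := B') (S := S') hS2.2.1 (by omega) hrot' (i := j')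
      (by omega) (by omega)
    unfold jw
    rw [drop_join (by omega), drop_join' (by omega), hposv]
    generalize pos ((A ++ S ++ B).drop i) = X at *
    generalize pos ((A' ++ S' ++ B').drop j') = Y at *
    have h := hsl' _ m1 _ m2 0 le_rfl
    rw [hpos, hpos'] at h
    obtain ⟨D, hDd⟩ : ∃ D : Z3, D = X + (0, 0, 1) - (Y + (1, 0, 0)) := ⟨_, rfl⟩
    have e1 : Y - pos B' + (r' + pos B') + ((s, t) : Z3) + (0, 0, 0) -
        (X - pos B + (e + (0, 0, 1) + pos B)) = sv - D := by
      rw [hsv2, hDd]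
      have : ((0, 0, 0) : Z3) = 0 := rfl
      rw [this]
      abel
    rw [e1, dt_expand] at h
    rw [← hDd]
    by_contra hlt
    push Not at hlt
    have hR0 : (0 : ℤ) ≤ R := Int.natCast_nonneg R
    have hcs := cs3 sv D
    have hDD : 0 ≤ dt D D := dt_nn D
    have hss : 0 ≤ dt sv sv := dt_nn sv
    have hb2 : dt sv D ^ 2 ≤ ((R : ℤ) + 1) ^ 2 := by
      calc dt sv D ^ 2 ≤ dt sv sv * dt D D := hcs
        _ ≤ dt sv sv * 1 := mul_le_mul_of_nonneg_left hlt hss
        _ ≤ ((R : ℤ) + 1) ^ 2 := by linarith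
    have hb3 := abs_le_of_sq_le_sq hb2 (by linarith)
    rw [abs_le] at hb3
    linarith [hb3.1, hb3.2]
  · have e1 : pos (w1.drop k) - (0, 0, 1) - pos B - pos (w2.drop k') + (1, 0, 0) + pos B' =
        ((s, t) : Z3) - sv := by
      rw [hpos, hpos', hsv2]
      abel
    rw [e1]
    unfold near
    simp only [Prod.fst_sub, Prod.snd_sub]
    push_cast
    have hR0 : (0 : ℤ) ≤ R := Int.natCast_nonneg R
    refine ⟨by simp; linarith, ?_, ?_⟩
    · have : t.1 - (t.1 - sv.2.1) = sv.2.1 := by ring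
      rw [this]
      linarith [hsvb.2.1]
    · have : t.2 - (t.2 - sv.2.2) = sv.2.2 := by ring
      rw [this]
      linarith [hsvb.2.2]

end

end UB

end KN
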