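import Pool.Agent.W606.UB.Stm

/-!
# LLd: the local lemma with information on the direction (adapted from H246K2/LL.lean)
-/

set_option autoImplicit false

namespace KN

namespace UB

namespace W639LL

theorem dt_step (N y x : Z3) (g : Dir) : dt N (y + vec g - x) = dt N (y - x) + dt N (vec g) := by
  simp only [dt, Prod.fst_sub, Prod.snd_sub, Prod.fst_add, Prod.snd_add]
  ring

theorem vec_neg (g : Dir) : vec (neg g) = - vec g := by
  cases g <;> rfl

theorem dt_neg (N : Z3) (g : Dir) : dt N (vec (neg g)) = - dt N (vec g) := by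
  rw [vec_neg]
  simp only [dt, Prod.fst_neg, Prod.snd_neg]
  ring

theorem neg_neg' (g : Dir) : neg (neg g) = g := by
  cases g <;> rfl

theorem neg_inj {f g : Dir} (h : neg f = neg g) : f = g := by
  rw [← neg_neg' f, h, neg_neg']

theorem perp_symm {f g : Dir} (h : perp f g) : perp g f := Ne.symm h

theorem perp_neg {f g : Dir} (h : perp f g) : perp f (neg g) := by
  revert h
  cases f <;> cases g <;> decide

theorem near_mono {r s : ℕ} (h : r ≤ s) {p q : Z3} (hn : near r p q) : near s p q := by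
  obtain ⟨h1, h2, h3⟩ := hn
  have : (r : ℤ) ≤ s := by exact_mod_cast h
  exact ⟨h1.trans this, h2.trans this, h3.trans this⟩

theorem near_step {r : ℕ} {p q : Z3} (g : Dir) (hn : near r p q) : near (r + 1) (p + vec g) q := by
  obtain ⟨h1, h2, h3⟩ := hn
  rw [abs_le] at h1 h2 h3
  have b1 : -1 ≤ (vec g).1 ∧ (vec g).1 ≤ 1 := by cases g <;> decide
  have b2 : -1 ≤ (vec g).2.1 ∧ (vec g).2.1 ≤ 1 := by cases g <;> decide
  have b3 : -1 ≤ (vec g).2.2 ∧ (vec g).2.2 ≤ 1 := by cases g <;> decide
  refine ⟨?_, ?_, ?_⟩ <;> rw [abs_le] <;>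
    simp only [Prod.fst_add, Prod.snd_add, Nat.cast_add, Nat.cast_one] <;>
    constructor <;> omega

theorem near_self (x : Z3) : near 0 x x := by
  refine ⟨?_, ?_, ?_⟩ <;> simp

theorem sq16 {a : ℤ} (h : |a| ≤ ((4 : ℕ) : ℤ)) : a ^ 2 ≤ 16 := by
  rw [abs_le] at h
  push_cast at h
  nlinarith [h.1, h.2]

/-- the conclusion -/
def Goal (T L : ℕ) (P : Set Z3) (E : Z3 → Dir → Prop) (x N : Z3) : Prop :=
  ∃ (y : Z3) (f d : Dir), near 3 y x ∧ perp d f ∧ Big T L P y f d ∧
    (∀ g : Dir, dt N (vec g) ≤ dt N (vec d) + 700) ∧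
    (E y f ∨ (E y (neg d) ∧ E (y + vec (neg d)) f ∧ y + vec f ∉ P))

/-- the data -/
structure Ctx (T L : ℕ) (P : Set Z3) (E : Z3 → Dir → Prop) (x N : Z3) (M : ℤ) : Prop where
  G : Gra P E
  free : ∀ p, near 4 p x → 25 ≤ dt N (p - x) → p ∉ P
  room : ∀ y f d, M - 700 ≤ dt N (vec d) → near 3 y x → -3000 ≤ dt N (y - x) → perp d f →
    y + vec f + vec d ∉ P → Big T L P y f d
  M0 : 10000 ≤ M
  xP : x ∈ P
  hle : ∀ g : Dir, dt N (vec g) ≤ M

variable {T L : ℕ} {P : Set Z3} {E : Z3 → Dir → Prop} {x N : Z3} {M : ℤ}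

theorem D1 (c : Ctx T L P E x N M) {y : Z3} {f d : Dir} (hn : near 2 y x)
    (hl : -3000 ≤ dt N (y - x)) (hd : M - 700 ≤ dt N (vec d)) (hp : perp d f) (hE : E y f)
    (hP : y + vec f + vec d ∉ P) : Goal T L P E x N :=
  ⟨y, f, d, near_mono (by norm_num) hn, hp,
    c.room y f d hd (near_mono (by norm_num) hn) hl hp hP,
    fun g => by have := c.hle g; omega, Or.inl hE⟩

theorem D2 (c : Ctx T L P E x N M) {y : Z3} {d f : Dir} (hn : near 2 y x)
    (hl : -1400 ≤ dt N (y - x)) (hd : M - 700 ≤ dt N (vec d)) (hf : M - 700 ≤ dt N (vec f))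
    (hp : perp d f) (hE : E y (neg d)) (hE' : E (y + vec (neg d)) f) : Goal T L P E x N := by
  have hM := c.M0
  have h1 : y + vec f ∉ P := by
    refine c.free _ (near_mono (by norm_num) (near_step f hn)) ?_
    rw [dt_step]
    omega
  have h2 : y + vec f + vec d ∉ P := by
    refine c.free _ (near_step d (near_step f hn)) ?_
    rw [dt_step, dt_step]
    omega
  exact ⟨y, f, d, near_mono (by norm_num) hn, hp,
    c.room y f d hd (near_mono (by norm_num) hn) (by omega) hp h2,
    fun g => by have := c.hle g; omega, Or.inr ⟨hE, hE', h1⟩⟩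

theorem noup (c : Ctx T L P E x N M) {y : Z3} {g : Dir} (hn : near 2 y x)
    (hl : -1400 ≤ dt N (y - x)) (hg : M - 700 ≤ dt N (vec g)) : ¬ E y g := by
  intro h
  have hM := c.M0
  refine c.free _ (near_mono (by norm_num) (near_step g hn)) ?_ (c.G.mem y g h).2
  rw [dt_step]
  omega

/-- lemma (d): the flip -/
theorem DD (c : Ctx T L P E x N M) {y : Z3} {a b : Dir} (hn : near 2 y x)
    (hl : -1400 ≤ dt N (y - x)) (ha : M - 700 ≤ dt N (vec a)) (hb : M - 700 ≤ dt N (vec b))
    (hp : perp a b) (hE : E y (neg a)) (hE' : E (y + vec (neg a) + vec b) (neg b)) :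
    Goal T L P E x N := by
  refine D2 c hn hl ha hb hp hE ?_
  have h1 := c.G.symm _ _ hE'
  rw [neg_neg', vec_neg b, add_neg_cancel_right] at h1
  exact h1

/-- the third case -/
theorem case3 (c : Ctx T L P E x N M) {a b e : Dir} (hab : perp a b) (hae : perp a e)
    (hbe : perp b e) (ha : M - 700 ≤ dt N (vec a)) (hb : M - 700 ≤ dt N (vec b))
    (he : M - 700 ≤ dt N (vec e)) (ha' : dt N (vec a) ≤ M) (hb' : dt N (vec b) ≤ M)
    (all : ∀ f : Dir, f = a ∨ f = b ∨ f = e ∨ f = neg a ∨ f = neg b ∨ f = neg e)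
    (hE : E x (neg a)) (hE' : E x (neg b)) : Goal T L P E x N := by
  have hM := c.M0
  have hx0 : dt N (x - x) = 0 := by simp [dt]
  have hnx : near 2 x x := near_mono (by norm_num) (near_self x)
  have hn1 : near 1 (x + vec (neg a)) x := near_step _ (near_self x)
  have hn2 : near 2 (x + vec (neg a) + vec e) x := near_step _ hn1
  have hn1' : near 1 (x + vec (neg b)) x := near_step _ (near_self x)
  have hn2' : near 2 (x + vec (neg b) + vec e) x := near_step _ hn1'
  have hlz : -1400 ≤ dt N (x + vec (neg a) + vec e - x) := by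
    rw [dt_step, dt_step, hx0, dt_neg]
    omega
  have hlz' : -1400 ≤ dt N (x + vec (neg b) + vec e - x) := by
    rw [dt_step, dt_step, hx0, dt_neg]
    omega
  by_cases hz : x + vec (neg a) + vec e ∈ P
  swap
  · exact D1 c hnx (by rw [hx0]; norm_num) he (perp_neg (perp_symm hae)) hE hz
  by_cases hz' : x + vec (neg b) + vec e ∈ P
  swap
  · exact D1 c hnx (by rw [hx0]; norm_num) he (perp_neg (perp_symm hbe)) hE' hz'
  -- edges at z
  by_cases hze : E (x + vec (neg a) + vec e) (neg e)
  · exact DD c hnx (by rw [hx0]; norm_num) ha he hae hE hze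
  have hzb : E (x + vec (neg a) + vec e) (neg b) := by
    obtain ⟨f, g, hfg, hf, hg, -⟩ := c.G.two _ hz
    have key : ∀ h, E (x + vec (neg a) + vec e) h → h = neg a ∨ h = neg b := by
      intro h hh
      rcases all h with rfl | rfl | rfl | rfl | rfl | rfl
      · exact absurd hh (noup c hn2 hlz ha)
      · exact absurd hh (noup c hn2 hlz hb)
      · exact absurd hh (noup c hn2 hlz he)
      · exact Or.inl rfl
      · exact Or.inr rfl
      · exact absurd hh hze
    rcases key f hf with h1 | h1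
    · rcases key g hg with h2 | h2
      · exact absurd (h1.trans h2.symm) hfg
      · rw [← h2]; exact hg
    · rw [← h1]; exact hf
  -- edges at z'
  have hz'' : x + vec (neg a) + vec e + vec (neg b) + vec a = x + vec (neg b) + vec e := by
    rw [vec_neg a, vec_neg b]
    abel
  by_cases hze' : E (x + vec (neg b) + vec e) (neg e)
  · exact DD c hnx (by rw [hx0]; norm_num) hb he hbe hE' hze'
  by_cases hza' : E (x + vec (neg b) + vec e) (neg a)
  · refine DD c hn2 hlz hb ha (perp_symm hab) hzb ?_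
    rw [hz'']
    exact hza'
  exfalso
  obtain ⟨f, g, hfg, hf, hg, -⟩ := c.G.two _ hz'
  have key : ∀ h, E (x + vec (neg b) + vec e) h → h = neg b := by
    intro h hh
    rcases all h with rfl | rfl | rfl | rfl | rfl | rfl
    · exact absurd hh (noup c hn2' hlz' ha)
    · exact absurd hh (noup c hn2' hlz' hb)
    · exact absurd hh (noup c hn2' hlz' he)
    · exact absurd hh hza'
    · rfl
    · exact absurd hh hze'
  exact hfg ((key f hf).trans (key g hg).symm)

end W639LL

open W639LL

theorem LLd_main (h1 : T_frame) (h2 : T_room) : P_LLd := by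
  intro T L hTL R₀
  obtain ⟨M₁, hM₁, hroom₁⟩ := h2 T L hTL
  obtain ⟨M₀, hM₀, hMR, hroom⟩ : ∃ M₀ : ℤ, 10000 ≤ M₀ ∧ (R₀ : ℤ) ≤ M₀ ∧
      ∀ (P : Set Z3) (x N y : Z3) (f d : Dir) (M : ℤ), M₀ ≤ M →
        (∀ p ∈ P, 2 * dt N (p - x) ≤ dt (p - x) (p - x)) →
        (∀ g : Dir, dt N (vec g) ≤ M) → M - 700 ≤ dt N (vec d) → near 3 y x →
        -3000 ≤ dt N (y - x) → perp d f → y + vec f + vec d ∉ P → Big T L P y f d :=
    ⟨max M₁ R₀, hM₁.trans (le_max_left _ _), le_max_right _ _,
      fun P x N y f d M hM => hroom₁ P x N y f d M ((le_max_left _ _).trans hM)⟩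
  refine ⟨2 * M₀.toNat, by omega, by omega, ?_⟩
  intro P E hG x N hC
  obtain ⟨hxP, hR1, -, hfree⟩ := hC
  obtain ⟨u₁, u₂, u₃, p12, p13, p23, n3, n32, n21, all, -⟩ := h1 N
  have hle : ∀ g : Dir, dt N (vec g) ≤ dt N (vec u₁) := by
    intro g
    rcases all g with rfl | rfl | rfl | rfl | rfl | rfl <;> (try rw [dt_neg]) <;> omega
  have hge : ∀ g : Dir, -dt N (vec u₁) ≤ dt N (vec g) := by
    intro g
    have := hle (neg g)
    rw [dt_neg] at this
    omega
  set M := dt N (vec u₁) with hM
  have c1 : N.1 ≤ M ∧ -M ≤ N.1 := by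
    have h3 := hle .xp
    have h4 := hge .xp
    have h5 : dt N (vec .xp) = N.1 := by simp [dt, vec]
    rw [h5] at h3 h4
    exact ⟨h3, h4⟩
  have c2 : N.2.1 ≤ M ∧ -M ≤ N.2.1 := by
    have h3 := hle .yp
    have h4 := hge .yp
    have h5 : dt N (vec .yp) = N.2.1 := by simp [dt, vec]
    rw [h5] at h3 h4
    exact ⟨h3, h4⟩
  have c3 : N.2.2 ≤ M ∧ -M ≤ N.2.2 := by
    have h3 := hle .zp
    have h4 := hge .zp
    have h5 : dt N (vec .zp) = N.2.2 := by simp [dt, vec]
    rw [h5] at h3 h4
    exact ⟨h3, h4⟩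
  have hMM : M₀ ≤ M := by
    by_contra hcon
    have hM0 : 0 ≤ M := by omega
    have h3 : dt N N ≤ 3 * M ^ 2 := by
      unfold dt
      nlinarith [mul_nonneg (sub_nonneg.2 c1.1) (by linarith [c1.2] : (0 : ℤ) ≤ N.1 + M),
        mul_nonneg (sub_nonneg.2 c2.1) (by linarith [c2.2] : (0 : ℤ) ≤ N.2.1 + M),
        mul_nonneg (sub_nonneg.2 c3.1) (by linarith [c3.2] : (0 : ℤ) ≤ N.2.2 + M)]
    have h4 : ((2 * M₀.toNat : ℕ) : ℤ) = 2 * M₀ := by
      push_cast
      rw [Int.toNat_of_nonneg (by omega)]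
    rw [h4] at hR1
    have h5 : M < M₀ := not_le.1 hcon
    nlinarith
  have ctx : Ctx T L P E x N M := by
    refine ⟨hG, fun p hp hl hpP => ?_, fun y f d hd hn hl hp hP => ?_, by omega, hxP, hle⟩
    · have h3 := hfree p hpP
      obtain ⟨b1, b2, b3⟩ := hp
      have e1 := sq16 b1
      have e2 := sq16 b2
      have e3 := sq16 b3
      have h4 : dt (p - x) (p - x) ≤ 48 := by
        simp only [dt, Prod.fst_sub, Prod.snd_sub]
        nlinarith
      omega
    · exact hroom P x N y f d M hMM hfree hle hd hn hl hp hP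
  have hM10 : 10000 ≤ M := by omega
  have hx0 : dt N (x - x) = 0 := by simp [dt]
  have hnx : near 2 x x := near_mono (by norm_num) (near_self x)
  show Goal T L P E x N
  have c1n : M - 700 ≤ dt N (vec u₁) := by omega
  have nou1 : ∀ h, E x h → h ≠ u₁ := by
    rintro h hh rfl
    exact noup ctx hnx (by rw [hx0]; norm_num) c1n hh
  by_cases hc1 : 60 ≤ M - dt N (vec u₂)
  · -- case 1
    obtain ⟨f, g, hfg, hf, hg, -⟩ := hG.two x hxP
    have key : ∀ e, E x e → e ≠ neg u₁ → Goal T L P E x N := by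
      intro e he hne
      have h3 : perp u₁ e ∧ -dt N (vec u₂) ≤ dt N (vec e) := by
        rcases all e with rfl | rfl | rfl | rfl | rfl | rfl
        · exact absurd rfl (nou1 _ he)
        · exact ⟨p12, by omega⟩
        · exact ⟨p13, by omega⟩
        · exact absurd rfl hne
        · exact ⟨perp_neg p12, by rw [dt_neg]⟩
        · exact ⟨perp_neg p13, by rw [dt_neg]; omega⟩
      refine D1 ctx hnx (by rw [hx0]; norm_num) c1n h3.1 he ?_
      refine ctx.free _ (near_step _ (near_step _ hnx)) ?_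
      rw [dt_step, dt_step, hx0]
      omega
    by_cases hfn : f = neg u₁
    · exact key g hg fun h => hfg (hfn.trans h.symm)
    · exact key f hf hfn
  · have c2n : M - 700 ≤ dt N (vec u₂) := by omega
    by_cases hc2 : 700 ≤ M - dt N (vec u₃)
    · -- case 2
      have key : ∀ y ∈ P, near 2 y x → -100 ≤ dt N (y - x) →
          Goal T L P E x N ∨ (E y (neg u₁) ∧ E y (neg u₂)) := by
        intro y hy hn hl
        by_cases hg : Goal T L P E x N
        · exact Or.inl hg
        refine Or.inr ?_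
        have k2 : ∀ h, E y h → h = neg u₁ ∨ h = neg u₂ := by
          intro h hh
          have k3 : ∀ e, E y e → perp u₁ e → -dt N (vec u₃) ≤ dt N (vec e) → False := by
            intro e he hpe hle'
            apply hg
            refine D1 ctx hn (by omega) c1n hpe he ?_
            refine ctx.free _ (near_step _ (near_step _ hn)) ?_
            rw [dt_step, dt_step]
            omega
          rcases all h with rfl | rfl | rfl | rfl | rfl | rfl
          · exact absurd hh (noup ctx hn (by omega) c1n)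
          · exact absurd hh (noup ctx hn (by omega) c2n)
          · exact (k3 _ hh p13 (by omega)).elim
          · exact Or.inl rfl
          · exact Or.inr rfl
          · exact (k3 _ hh (perp_neg p13) (by rw [dt_neg])).elim
        obtain ⟨f, g, hfg, hf, hg', -⟩ := hG.two y hy
        rcases k2 f hf with h3 | h3 <;> rcases k2 g hg' with h4 | h4
        · exact absurd (h3.trans h4.symm) hfg
        · rw [h3] at hf; rw [h4] at hg'; exact ⟨hf, hg'⟩
        · rw [h3] at hf; rw [h4] at hg'; exact ⟨hg', hf⟩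
        · exact absurd (h3.trans h4.symm) hfg
      rcases key x hxP hnx (by rw [hx0]; norm_num) with h3 | ⟨h3, -⟩
      · exact h3
      by_cases hw : x + vec (neg u₁) + vec u₂ ∈ P
      · have hn2 : near 2 (x + vec (neg u₁) + vec u₂) x :=
          near_step _ (near_step _ (near_self x))
        have hl2 : -100 ≤ dt N (x + vec (neg u₁) + vec u₂ - x) := by
          rw [dt_step, dt_step, hx0, dt_neg]
          omega
        rcases key _ hw hn2 hl2 with h4 | ⟨-, h4⟩
        · exact h4
        · exact DD ctx hnx (by rw [hx0]; norm_num) c1n c2n p12 h3 h4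
      · exact D1 ctx hnx (by rw [hx0]; norm_num) c2n (perp_neg (perp_symm p12)) h3 hw
    · -- case 3
      have c3n : M - 700 ≤ dt N (vec u₃) := by omega
      have hlx : -1400 ≤ dt N (x - x) := by rw [hx0]; norm_num
      have k2 : ∀ h, E x h → h = neg u₁ ∨ h = neg u₂ ∨ h = neg u₃ := by
        intro h hh
        rcases all h with rfl | rfl | rfl | rfl | rfl | rfl
        · exact absurd hh (noup ctx hnx hlx c1n)
        · exact absurd hh (noup ctx hnx hlx c2n)
        · exact absurd hh (noup ctx hnx hlx c3n)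
        · exact Or.inl rfl
        · exact Or.inr (Or.inl rfl)
        · exact Or.inr (Or.inr rfl)
      have e2 : dt N (vec u₂) ≤ M := hle _
      have e3 : dt N (vec u₃) ≤ M := hle _
      have all12 := all
      have all13 : ∀ f : Dir, f = u₁ ∨ f = u₃ ∨ f = u₂ ∨ f = neg u₁ ∨ f = neg u₃ ∨ f = neg u₂ := by
        intro f
        rcases all f with h | h | h | h | h | h <;> simp [h]
      have all23 : ∀ f : Dir, f = u₂ ∨ f = u₃ ∨ f = u₁ ∨ f = neg u₂ ∨ f = neg u₃ ∨ f = neg u₁ := by
        intro f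
        rcases all f with h | h | h | h | h | h <;> simp [h]
      have g12 : E x (neg u₁) → E x (neg u₂) → Goal T L P E x N := fun h3 h4 =>
        case3 ctx p12 p13 p23 c1n c2n c3n le_rfl e2 all12 h3 h4
      have g13 : E x (neg u₁) → E x (neg u₃) → Goal T L P E x N := fun h3 h4 =>
        case3 ctx p13 p12 (perp_symm p23) c1n c3n c2n le_rfl e3 all13 h3 h4
      have g23 : E x (neg u₂) → E x (neg u₃) → Goal T L P E x N := fun h3 h4 =>
        case3 ctx p23 (perp_symm p12) (perp_symm p13) c2n c3n c1n e2 e3 all23 h3 h4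
      obtain ⟨f, g, hfg, hf, hg, -⟩ := hG.two x hxP
      rcases k2 f hf with h3 | h3 | h3 <;> rcases k2 g hg with h4 | h4 | h4 <;>
        first
          | exact absurd (h3.trans h4.symm) hfg
          | (rw [h3] at hf; rw [h4] at hg
             first
              | exact g12 hf hg | exact g12 hg hf | exact g13 hf hg | exact g13 hg hf
              | exact g23 hf hg | exact g23 hg hf)

end UB

end KN
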