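import Pool.Agent.W606.UB.Stm

set_option autoImplicit false

namespace KN.UB

open Finset Filter Topology
open scoped Classical

noncomputable section

namespace MonoP

/-- the motion at time `t` -/
def ff (t : ℝ) (p : V × ℝ) : V := (p.1.1 + t * p.2, p.1.2)

theorem chain_zip (g : V × ℝ → V) (q : V × ℝ) (L : List (V × ℝ)) (p : V × ℝ) :
    chain (g p) (L.map g ++ [g q]) =
      ((p :: L).zip (L ++ [q])).map (fun e => (g e.1, g e.2)) := by
  induction L generalizing p with
  | nil => simp [chain]
  | cons r L ih =>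
    simp only [List.map_cons, List.cons_append, chain, List.zip_cons_cons]
    rw [ih r]

theorem edges_cyc (g : V × ℝ → V) (l : List (V × ℝ)) :
    edges (l.map g) = (cyc l).map (fun e => (g e.1, g e.2)) := by
  cases l with
  | nil => simp [edges, cyc]
  | cons p L =>
    simp only [List.map_cons, edges, cyc, List.tail_cons, List.take_succ_cons, List.take_zero]
    exact chain_zip g p L p

theorem next (l : List (V × ℝ)) (e : (V × ℝ) × (V × ℝ)) (he : e ∈ cyc l) :
    ∃ e'' ∈ cyc l, e''.1 = e.2 := by
  have h2 : e.2 ∈ l := by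
    have : e.2 ∈ l.tail ++ l.take 1 := (List.of_mem_zip (a := e.1) (b := e.2) he).2
    rw [List.mem_append] at this
    rcases this with h | h
    · exact List.mem_of_mem_tail h
    · exact List.mem_of_mem_take h
  have hlen : l.length ≤ (l.tail ++ l.take 1).length := by
    cases l with
    | nil => simp
    | cons p L => simp
  have hmap : (cyc l).map Prod.fst = l := List.map_fst_zip hlen
  rw [← hmap, List.mem_map] at h2
  obtain ⟨e'', h, h'⟩ := h2
  exact ⟨e'', h, h'⟩

theorem lerp_ff (t u : ℝ) (a b : V × ℝ) : lerp (ff t a) (ff t b) u =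
    ((lerp a.1 b.1 u).1 + t * ((1 - u) * a.2 + u * b.2), (lerp a.1 b.1 u).2) := by
  unfold lerp ff
  ext
  · simp
    ring
  · simp
  · simp

theorem key (l : List (V × ℝ)) (hM : Mono l) (t : ℝ) (ht : 0 ≤ t)
    (e e' : (V × ℝ) × (V × ℝ)) (he : e ∈ cyc l) (he' : e' ∈ cyc l) (u u' : ℝ)
    (h1 : 0 ≤ u) (h2 : u < 1) (h3 : 0 ≤ u') (h4 : u' < 1)
    (h : lerp (ff t e.1) (ff t e.2) u = lerp (ff t e'.1) (ff t e'.2) u') :
    lerp e.1.1 e.2.1 u = lerp e'.1.1 e'.2.1 u' := by
  rw [lerp_ff, lerp_ff] at h
  have ha := congrArg Prod.fst h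
  have hb := congrArg Prod.snd h
  simp only at ha hb
  refine Prod.ext ?_ hb
  rcases lt_trichotomy (lerp e.1.1 e.2.1 u).1 (lerp e'.1.1 e'.2.1 u').1 with hx | hx | hx
  · exfalso
    have := hM e he e' he' u u' h1 h2 h3 h4 hb hx
    have := mul_le_mul_of_nonneg_left this ht
    linarith
  · exact hx
  · exfalso
    have := hM e' he' e he u' u h3 h4 h1 h2 hb.symm hx
    have := mul_le_mul_of_nonneg_left this ht
    linarith

theorem lerp_zero (p q : V) : lerp p q 0 = p := by
  unfold lerp
  simp

theorem simple_ff (l : List (V × ℝ)) (hs : Simple (l.map Prod.fst)) (hM : Mono l) (t : ℝ)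
    (ht : 0 ≤ t) : Simple (l.map (ff t)) := by
  obtain ⟨s1, s2, s3⟩ := hs
  rw [edges_cyc] at s2 s3
  refine ⟨?_, ?_, ?_⟩
  · intro h
    apply s1
    rw [List.map_eq_nil_iff] at h
    rw [h]
    rfl
  · rw [edges_cyc, List.pairwise_map]
    rw [List.pairwise_map] at s2
    refine List.Pairwise.imp_of_mem ?_ s2
    intro e e' he he' hd u v hu hu' hv hv' heq
    exact hd u v hu hu' hv hv' (key l hM t ht e e' he he' u v hu hu' hv hv' heq)
  · rw [edges_cyc]
    intro x hx
    rw [List.mem_map] at hx
    obtain ⟨e, he, rfl⟩ := hx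
    intro heq
    obtain ⟨e'', he'', hn⟩ := next l e he
    have h0 := key l hM t ht e e'' he he'' 0 0 le_rfl one_pos le_rfl one_pos (by
      rw [lerp_zero, lerp_zero, hn]; exact heq)
    rw [lerp_zero, lerp_zero, hn] at h0
    exact s3 (e.1.1, e.2.1) (List.mem_map.mpr ⟨e, he, rfl⟩) h0

theorem zip_ff (l : List (V × ℝ)) (t : ℝ) :
    List.zipWith (fun p q => lerp p q t) (l.map Prod.fst) (mv l) = l.map (ff t) := by
  unfold mv
  rw [List.zipWith_map]
  induction l with
  | nil => rfl
  | cons p l ih =>
    rw [List.zipWith_cons_cons, ih, List.map_cons]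
    congr 1
    unfold lerp ff
    ext
    · simp
      ring
    · simp
      ring
    · simp
      ring

end MonoP

open MonoP

theorem mono_main (h : S_lin) : P_mono := by
  intro l hs hM
  refine ⟨?_, ?_⟩
  · apply h
    · simp [mv]
    · intro t h0 _
      rw [zip_ff]
      exact simple_ff l hs hM t h0
  · have := simple_ff l hs hM 1 zero_le_one
    have e : l.map (ff 1) = mv l := by
      unfold mv
      apply List.map_congr_left
      intro p _
      simp [ff]
    rw [e] at this
    exact this

end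

end KN.UB
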