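import Pool.Agent.W606.UB.Stm
import Pool.Agent.H246KN.Basic

/-!
# UB-MULT: a polygon is a join at few of its vertices
-/

set_option autoImplicit false

namespace KN

namespace UB

open Finset
open scoped Classical

theorem take_pos (w : List Dir) (h0 : pos w = 0) (s : ℕ) :
    pos (w.take s) = - pos (w.drop s) := by
  apply eq_neg_of_add_eq_zero_left
  rw [← pos_append, List.take_append_drop, h0]

theorem pos_rot1 (w : List Dir) (h0 : pos w = 0) (s i : ℕ) (hs : s + i ≤ w.length) :
    pos ((w.rotate s).drop i) = pos (w.drop (s + i)) - pos (w.drop s) := by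
  rw [List.rotate_eq_drop_append_take (by omega : s ≤ w.length),
    List.drop_append_of_le_length (by rw [List.length_drop]; omega), List.drop_drop, pos_append,
    take_pos w h0, sub_eq_add_neg]

theorem pos_rot2 (w : List Dir) (h0 : pos w = 0) (s i : ℕ) (hs : s ≤ w.length)
    (h1 : w.length ≤ s + i) (hi : i ≤ w.length) :
    pos ((w.rotate s).drop i) = pos (w.drop (s + i - w.length)) - pos (w.drop s) := by
  have e1 : (w.rotate s).drop i = (w.take s).drop (s + i - w.length) := by
    rw [List.rotate_eq_drop_append_take hs, List.drop_append,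
      List.drop_eq_nil_of_le (by rw [List.length_drop]; omega), List.nil_append,
      List.length_drop]
    congr 1
    omega
  have e3 : ∀ k : ℕ, k ≤ s → w.drop k = (w.take s).drop k ++ w.drop s := by
    intro k hk
    calc w.drop k = (w.take s ++ w.drop s).drop k := by rw [List.take_append_drop]
      _ = _ := List.drop_append_of_le_length (by rw [List.length_take]; omega)
  have e2 := e3 (s + i - w.length) (by omega)
  rw [e1, e2, pos_append, add_sub_cancel_right]

theorem J_rot {β lam n : ℕ} (hn : 1 ≤ n) {w : List Dir} (h0 : pos w = 0) {s : ℕ}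
    (hs : s < 2 * (n + β)) (h1 : J β lam n w) (h2 : J β lam n (w.rotate s)) :
    ¬ (lam + 1 ≤ s ∧ s + lam ≤ n + β - 1) ∧
    ¬ (n + β + 1 + lam ≤ s ∧ s + lam ≤ 2 * (n + β) - 1) := by
  obtain ⟨hl, hp, -⟩ := h1
  obtain ⟨-, -, h3⟩ := h2
  have hM : pos (w.drop (2 * (n + β))) = 0 := by
    rw [← hl, List.drop_length]
    rfl
  constructor
  · rintro ⟨ha, hb⟩
    have h4 := h3 (n + β - 1 - s) (2 * (n + β) - s) (by omega) (by omega) (by omega) (by omega)
    rw [pos_rot1 w h0 s _ (by omega), pos_rot1 w h0 s _ (by omega),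
      show s + (n + β - 1 - s) = n + β - 1 by omega,
      show s + (2 * (n + β) - s) = 2 * (n + β) by omega, hp, hM, sub_sub_sub_cancel_right,
      sub_zero] at h4
    simp [dt] at h4
  · rintro ⟨ha, hb⟩
    have h4 := h3 (2 * (n + β) - s) (n + β - 1 + (2 * (n + β) - s)) (by omega) (by omega)
      (by omega) (by omega)
    rw [pos_rot1 w h0 s _ (by omega), pos_rot2 w h0 s _ (by omega) (by omega) (by omega),
      show s + (n + β - 1 + (2 * (n + β) - s)) - w.length = n + β - 1 by omega,
      show s + (2 * (n + β) - s) = 2 * (n + β) by omega, hp, hM, sub_sub_sub_cancel_right] at h4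
    simp [dt] at h4

/-- the exceptional rotations -/
def bad (β lam n : ℕ) : Finset ℕ := range (lam + 1) ∪ Icc (n + β - lam) (n + β + lam) ∪
  Icc (2 * (n + β) - lam) (2 * (n + β) - 1)

theorem bad_card (β lam n : ℕ) (hn : 1 ≤ n) : (bad β lam n).card ≤ 4 * lam + 2 := by
  unfold bad
  refine (card_union_le _ _).trans ?_
  refine (Nat.add_le_add_right (card_union_le _ _) _).trans ?_
  rw [card_range, Nat.card_Icc, Nat.card_Icc]
  omega

theorem mem_bad {β lam n : ℕ} (hn : 1 ≤ n) {w : List Dir} (h0 : pos w = 0) {s : ℕ}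
    (hs : s < 2 * (n + β)) (h1 : J β lam n w) (h2 : J β lam n (w.rotate s)) :
    s ∈ bad β lam n := by
  have h := J_rot hn h0 hs h1 h2
  unfold bad
  rw [mem_union, mem_union, mem_range, mem_Icc, mem_Icc]
  omega

theorem few {β lam n : ℕ} (hn : 1 ≤ n) {w : List Dir} (h0 : pos w = 0)
    (hl : w.length = 2 * (n + β)) :
    ((range (2 * (n + β))).filter (fun s => J β lam n (w.rotate s))).card ≤ 4 * lam + 2 := by
  set G := (range (2 * (n + β))).filter (fun s => J β lam n (w.rotate s)) with hG
  rcases G.eq_empty_or_nonempty with h | h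
  · rw [h]
    simp
  · obtain ⟨hm1, hm2⟩ := mem_filter.1 (G.min'_mem h)
    rw [mem_range] at hm1
    set m := G.min' h with hm
    have hp : pos (w.rotate m) = 0 := by
      have := pos_rot1 w h0 m 0 (by omega)
      simpa using this
    refine le_trans ?_ (bad_card β lam n hn)
    refine card_le_card_of_injOn (fun s => s - m) ?_ ?_
    · intro s hs
      have hs' := mem_filter.1 (mem_coe.1 hs)
      have hms : m ≤ s := G.min'_le s (mem_coe.1 hs)
      have hs1 := mem_range.1 hs'.1
      apply mem_coe.2
      change s - m ∈ bad β lam n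
      refine mem_bad hn hp (by omega) hm2 ?_
      rw [List.rotate_rotate, show m + (s - m) = s by omega]
      exact hs'.2
    · intro s hs t ht hst
      have h1 : m ≤ s := G.min'_le s (mem_coe.1 hs)
      have h2 : m ≤ t := G.min'_le t (mem_coe.1 ht)
      simp only at hst
      omega

theorem U_rot (h : S_words) {w : List Dir} (hw : SAP w) (hu : U w) (k : ℕ) :
    U (w.rotate k) := by
  have h1 := ((h w hw).2.2 k).2
  rcases hu with h2 | h2
  · exact Or.inl (h1.symm.trans h2)
  · exact Or.inr (h1.symm.trans h2)

theorem K_rot (h : S_words) {m : ℕ} {w : List Dir} (hw : w ∈ K U m) (k : ℕ) :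
    w.rotate k ∈ K U m := by
  rw [mem_K] at hw ⊢
  exact ⟨by rw [List.length_rotate]; exact hw.1, ((h w hw.2.1).2.2 k).1,
    U_rot h hw.2.1 hw.2.2 k⟩

theorem mult_main (h : S_words) : P_mult := by
  intro β lam
  refine ⟨4 * lam + 2, 1, ?_⟩
  intro n hn
  set M := 2 * (n + β) with hM
  set Z := (K U M).filter (J β lam n) with hZ
  have key : ∑ s ∈ range M, Z.card ≤ ∑ w ∈ K U M,
      ((range M).filter (fun s => J β lam n (w.rotate s))).card := by
    have e1 : ∑ w ∈ K U M, ((range M).filter (fun s => J β lam n (w.rotate s))).card =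
        ∑ s ∈ range M, ((K U M).filter (fun w => J β lam n (w.rotate s))).card := by
      simp only [card_filter]
      rw [sum_comm]
    rw [e1]
    apply sum_le_sum
    intro s hs
    rw [mem_range] at hs
    refine card_le_card_of_injOn (fun w => w.rotate (M - s)) ?_ ?_
    · intro w hw
      have hw' := mem_filter.1 (mem_coe.1 hw)
      apply mem_coe.2
      refine mem_filter.2 ⟨K_rot h hw'.1 _, ?_⟩
      have hl : w.length = M := (mem_K.1 hw'.1).1
      rw [List.rotate_rotate, show M - s + s = w.length by omega, List.rotate_length]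
      exact hw'.2
    · intro w _ v _ hwv
      exact List.rotate_injective (M - s) hwv
  have key2 : ∑ w ∈ K U M, ((range M).filter (fun s => J β lam n (w.rotate s))).card ≤
      ∑ _w ∈ K U M, (4 * lam + 2) := by
    apply sum_le_sum
    intro w hw
    have hw' := mem_K.1 hw
    exact few hn hw'.2.1.2.1 hw'.1
  have h3 := key.trans key2
  rw [sum_const, sum_const, card_range, smul_eq_mul, smul_eq_mul] at h3
  calc n * Z.card ≤ M * Z.card := Nat.mul_le_mul_right _ (by omega)
    _ ≤ (K U M).card * (4 * lam + 2) := h3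
    _ = (4 * lam + 2) * a U M := by unfold a; ring

end UB

end KN
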