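import Pool.Agent.W606.UB.Stm
import Pool.Agent.H246KN.Basic

set_option autoImplicit false

namespace KN

namespace UB

open Finset Filter Topology
open scoped Classical

noncomputable section

namespace Pr71

theorem U_rt (h2 : T_rt) {d f : Dir} (hp : perp d f) {n : ℕ} {w : List Dir} (hw : w ∈ K U n) :
    w.map (rt d f) ∈ K U n := by
  rw [mem_K] at hw ⊢
  obtain ⟨hl, hs, hu⟩ := hw
  obtain ⟨h3, h4⟩ := h2 d f hp w hs
  refine ⟨by simpa using hl, h3, ?_⟩
  rcases hu with hu | hu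
  · exact Or.inl (h4.symm.trans hu)
  · exact Or.inr (h4.symm.trans hu)

/-- the sum over the rotated words -/
theorem sum_rt (h2 : T_rt) (h3 : T_rtc) {d f : Dir} (hp : perp d f) (n : ℕ)
    (F : List Dir → ℝ) : ∑ w ∈ K U n, F (w.map (rt d f)) = ∑ w ∈ K U n, F w := by
  obtain ⟨⟨d', f', hp', -, -, h4, h5, -, -⟩, -⟩ := h3 d f hp
  refine Finset.sum_nbij' (fun w => w.map (rt d f)) (fun w => w.map (rt d' f')) ?_ ?_ ?_ ?_ ?_
  · intro w hw; exact U_rt h2 hp hw
  · intro w hw; exact U_rt h2 hp' hw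
  · intro w _
    simp only [List.map_map]
    conv_rhs => rw [← List.map_id w]
    apply List.map_congr_left
    intro e _; exact h4 e
  · intro w _
    simp only [List.map_map]
    conv_rhs => rw [← List.map_id w]
    apply List.map_congr_left
    intro e _; exact h5 e
  · intro w _; rfl

theorem card_path {w : List Dir} (hw : SAP w) : w.length ≤ (path w).toFinset.card := by
  obtain ⟨_, _, h⟩ := hw
  have h1 : (path w).tail.toFinset ⊆ (path w).toFinset := by
    intro p hp
    rw [List.mem_toFinset] at hp ⊢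
    exact List.mem_of_mem_tail hp
  have h2 := Finset.card_le_card h1
  rw [List.toFinset_card_of_nodup h, List.length_tail, path_length] at h2
  simpa using h2

theorem real_ineq {n p1 p2 p3 : ℕ} (h : n ^ 2 ≤ p1 * p2 * p3) :
    (n : ℝ) ^ (2 / 3 : ℝ) ≤ p1 + p2 + p3 := by
  have h1 : ((n : ℝ)) ^ 2 ≤ (p1 : ℝ) * p2 * p3 := by exact_mod_cast h
  have hp1 : (0 : ℝ) ≤ p1 := Nat.cast_nonneg _
  have hp2 : (0 : ℝ) ≤ p2 := Nat.cast_nonneg _
  have hp3 : (0 : ℝ) ≤ p3 := Nat.cast_nonneg _
  have h2 : (p1 : ℝ) * p2 * p3 ≤ ((p1 : ℝ) + p2 + p3) ^ 3 := by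
    have a1 : (p1 : ℝ) ≤ p1 + p2 + p3 := by linarith
    have a2 : (p2 : ℝ) ≤ p1 + p2 + p3 := by linarith
    have a3 : (p3 : ℝ) ≤ p1 + p2 + p3 := by linarith
    calc (p1 : ℝ) * p2 * p3 ≤ ((p1 : ℝ) + p2 + p3) * (p1 + p2 + p3) * (p1 + p2 + p3) := by
          gcongr
      _ = _ := by ring
  have h3 : ((n : ℝ) ^ (2 / 3 : ℝ)) ^ (3 : ℕ) = (n : ℝ) ^ 2 := by
    rw [← Real.rpow_natCast, ← Real.rpow_mul (Nat.cast_nonneg _)]
    norm_num
  refine le_of_pow_le_pow_left₀ (n := 3) (by norm_num) (by positivity) ?_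
  rw [h3]
  exact h1.trans h2

theorem proj_rt (h3 : T_rtc) {d f : Dir} (hp : perp d f) (w : List Dir) (g : Z3 → ℤ × ℤ)
    (hg : ∀ p, (Rp d f p).2 = g p) :
    ((path (w.map (rt d f))).map Prod.snd).toFinset.card = ((path w).toFinset.image g).card := by
  obtain ⟨-, -, h4, -⟩ := h3 d f hp
  rw [(h4 w).2, List.map_map]
  congr 1
  ext q
  simp only [List.mem_toFinset, List.mem_map, Finset.mem_image, Function.comp]
  constructor
  · rintro ⟨p, hp, rfl⟩; exact ⟨p, hp, (hg p).symm⟩
  · rintro ⟨p, hp, rfl⟩; exact ⟨p, hp, hg p⟩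

end Pr71

open Pr71

theorem proj_main (h1 : T_LW) (h2 : T_rt) (h3 : T_rtc) : P_proj := by
  intro n hn
  have hpz : perp .yp .zp := by decide
  have hpx : perp .yp .xp := by decide
  have key : ∀ w ∈ K U n, (n : ℝ) ^ (2 / 3 : ℝ) ≤
      (((path w).map Prod.snd).toFinset.card : ℝ) +
      (((path (w.map (rt .yp .zp))).map Prod.snd).toFinset.card : ℝ) +
      (((path (w.map (rt .yp .xp))).map Prod.snd).toFinset.card : ℝ) := by
    intro w hw
    rw [mem_K] at hw
    obtain ⟨hl, hs, -⟩ := hw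
    have e1 : ((path w).map Prod.snd).toFinset.card =
        ((path w).toFinset.image (fun p => (p.2.1, p.2.2))).card := by
      congr 1
      ext q
      simp only [List.mem_toFinset, List.mem_map, Finset.mem_image]
    have e2 := proj_rt h3 hpz w (fun p => (p.1, p.2.2)) (by
      intro p
      simp [Rp, cr, vec])
    have e3 := proj_rt h3 hpx w (fun p => (p.1, p.2.1)) (by
      intro p
      simp [Rp, cr, vec])
    apply real_ineq
    rw [e1, e2, e3]
    have h5 := h1 (path w).toFinset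
    have h6 := card_path hs
    rw [hl] at h6
    exact (Nat.pow_le_pow_left h6 2).trans h5
  have h7 := Finset.sum_le_sum key
  rw [Finset.sum_const, Finset.sum_add_distrib, Finset.sum_add_distrib,
    sum_rt h2 h3 hpz n (fun w => (((path w).map Prod.snd).toFinset.card : ℝ)),
    sum_rt h2 h3 hpx n (fun w => (((path w).map Prod.snd).toFinset.card : ℝ)), nsmul_eq_mul] at h7
  have h8 : ((K U n).card : ℝ) = (a U n : ℝ) := rfl
  rw [h8] at h7
  linarith

end

end UB

end KN

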