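import Pool.Agent.W606.UB.Stm

set_option autoImplicit false

namespace KN.UB

open Finset Filter Topology
open scoped Classical

theorem sap_main : P_sap := by
  intro l1 v hX
  obtain ⟨hL, hR, hsep⟩ := hX
  have hv : pos v = (0, 0, 1) := by
    have := hR.2.1
    rw [pos] at this
    have h' : pos v = - vec .zm := by
      rw [eq_neg_iff_add_eq_zero]; exact this
    rw [h']; rfl
  have hl : pos l1 = (0, 0, -1) := by
    have := hL.2.1
    rw [pos_append] at this
    have h' : pos l1 = - pos [.zp] := by
      rw [eq_neg_iff_add_eq_zero]; exact this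
    rw [h']; simp [pos, vec]
  obtain ⟨e, l', rfl⟩ : ∃ e l', l1 = e :: l' := by
    cases l1 with
    | nil => exfalso; have := hL.1; simp at this
    | cons d v' => exact ⟨d, v', rfl⟩
  have hpx : pos (v ++ [Dir.xp]) = (1, 0, 1) := by
    rw [pos_append, hv]; simp [pos, vec]
  have hpm : pos (Dir.xm :: (v ++ [Dir.xp])) = (0, 0, 1) := by
    rw [pos, hpx]; simp [vec]
  have hpathv : path (v ++ [Dir.xp]) = (path v).map (fun p => p + (1, 0, 0)) ++ [0] := by
    rw [path_append]
    have h1 : path [Dir.xp] = [(1, 0, 0), 0] := by simp [path, pos, vec]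
    have h2 : pos [Dir.xp] = (1, 0, 0) := by simp [pos, vec]
    rw [h1, h2]
    conv_rhs => rw [← List.dropLast_append_getLast (path_ne_nil v), path_getLast]
    simp
  have hj : join (e :: l') v [] = e :: (l' ++ Dir.xm :: (v ++ [Dir.xp])) := by
    simp [join]
  have hpath : path (l' ++ Dir.xm :: (v ++ [Dir.xp])) =
      ((path l').dropLast.map (fun p => p + (0, 0, 1)) ++ [(0, 0, 1)]) ++
        ((path v).map (fun p => p + (1, 0, 0)) ++ [0]) := by
    rw [path_append, hpm, path, hpathv, hpx]
    have : ((1, 0, 1) : Z3) + vec Dir.xm = (0, 0, 1) := by simp [vec]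
    rw [this]
    simp
  have hleft : path (l' ++ [Dir.zp]) =
      ((path l').dropLast.map (fun p => p + (0, 0, 1)) ++ [(0, 0, 1)]) ++ [0] := by
    rw [path_append]
    have h1 : path [Dir.zp] = [(0, 0, 1), 0] := by simp [path, pos, vec]
    have h2 : pos [Dir.zp] = (0, 0, 1) := by simp [pos, vec]
    rw [h1, h2]
    simp
  have hLn : (path (l' ++ [Dir.zp])).Nodup := by
    have := hL.2.2
    simpa [path] using this
  have hRn : (path v).Nodup := by
    have := hR.2.2
    simpa [path] using this
  have hsub : ∀ p ∈ path (l' ++ [Dir.zp]), p ∈ path (e :: l' ++ [Dir.zp]) := by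
    intro p hp
    rw [List.cons_append, path]
    exact List.mem_cons_of_mem _ hp
  have hdis : ∀ p ∈ path (l' ++ [Dir.zp]), p ∉ (path v).map (fun p => p + (1, 0, 0)) := by
    intro p hp hq
    rw [List.mem_map] at hq
    obtain ⟨q, hq, rfl⟩ := hq
    have := hsep _ (hsub _ hp) q hq (by simp)
    simp at this
    omega
  refine ⟨?_, ?_, ?_⟩
  · rw [hj]
    have := hL.1
    simp at this ⊢
    omega
  · have : join (e :: l') v [] = (e :: l') ++ Dir.xm :: (v ++ [Dir.xp]) := rfl
    rw [this, pos_append, hl, hpm]
    simp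
  · rw [hj]
    simp only [path, List.tail_cons]
    rw [hpath]
    rw [hleft] at hLn hdis
    have hA := (List.nodup_append'.mp hLn)
    rw [List.nodup_append']
    refine ⟨hA.1, ?_, ?_⟩
    · rw [List.nodup_append']
      refine ⟨hRn.map (fun a b h => by simpa using h), by simp, ?_⟩
      intro p hp hq
      rw [List.mem_singleton] at hq
      subst hq
      exact hdis 0 (by simp) hp
    · intro p hp hq
      rw [List.mem_append] at hq
      rcases hq with hq | hq
      · exact hdis p (List.mem_append_left _ hp) hq
      · exact hA.2.2 hp hq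

end KN.UB
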