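import Pool.Agent.W606.UB.Stm

set_option autoImplicit false

namespace KN

namespace UB

open Finset Filter Topology
open scoped Classical

noncomputable section

namespace Sl71

/-- the squared distance -/
def F (t : ℤ × ℤ) (p q : Z3) (s : ℤ) : ℤ :=
  (q.1 + s - p.1) ^ 2 + ((q.2.1 + t.1 - p.2.1) ^ 2 + (q.2.2 + t.2 - p.2.2) ^ 2)

theorem F_eq (t : ℤ × ℤ) (p q : Z3) (s : ℤ) :
    dt (q + (s, t) - p) (q + (s, t) - p) = F t p q s := by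
  obtain ⟨t1, t2⟩ := t
  obtain ⟨p1, p2, p3⟩ := p
  obtain ⟨q1, q2, q3⟩ := q
  simp only [dt, F, Prod.fst_add, Prod.snd_add, Prod.fst_sub, Prod.snd_sub]
  ring

theorem F_eq' (t : ℤ × ℤ) (p q : Z3) (s j : ℤ) :
    dt (q + (s, t) + (j, 0, 0) - p) (q + (s, t) + (j, 0, 0) - p) = F t p q (s + j) := by
  obtain ⟨t1, t2⟩ := t
  obtain ⟨p1, p2, p3⟩ := p
  obtain ⟨q1, q2, q3⟩ := q
  simp only [dt, F, Prod.fst_add, Prod.snd_add, Prod.fst_sub, Prod.snd_sub]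
  ring

theorem F_succ (t : ℤ × ℤ) (p q : Z3) (s : ℤ) :
    F t p q (s + 1) = F t p q s + 2 * (q.1 + s - p.1) + 1 := by
  simp only [F]; ring

theorem F_ge (t : ℤ × ℤ) (p q : Z3) (s : ℤ) : (q.1 + s - p.1) ^ 2 ≤ F t p q s := by
  simp only [F]; nlinarith [sq_nonneg (q.2.1 + t.1 - p.2.1), sq_nonneg (q.2.2 + t.2 - p.2.2)]

end Sl71

open Sl71

theorem slide_main : P_slide := by
  intro R P Q t hex
  have hbd : ∃ b : ℤ, ∀ z : ℤ, (∃ p ∈ P, ∃ q ∈ Q, F t p q z ≤ ((R : ℤ) + 1) ^ 2) → z ≤ b := by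
    refine ⟨(R : ℤ) + 1 + ∑ p ∈ P, |p.1| + ∑ q ∈ Q, |q.1|, ?_⟩
    rintro z ⟨p, hp, q, hq, h⟩
    have h1 := (F_ge t p q z).trans h
    have h2 : q.1 + z - p.1 ≤ (R : ℤ) + 1 := abs_le_of_sq_le_sq' h1 (by positivity) |>.2
    have h3 : |p.1| ≤ ∑ p ∈ P, |p.1| :=
      Finset.single_le_sum (f := fun p : Z3 => |p.1|) (fun _ _ => abs_nonneg _) hp
    have h4 : |q.1| ≤ ∑ q ∈ Q, |q.1| :=
      Finset.single_le_sum (f := fun p : Z3 => |p.1|) (fun _ _ => abs_nonneg _) hq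
    have h5 := le_abs_self p.1
    have h6 := neg_abs_le q.1
    linarith
  have hin : ∃ z : ℤ, (∃ p ∈ P, ∃ q ∈ Q, F t p q z ≤ ((R : ℤ) + 1) ^ 2) := by
    obtain ⟨p, hp, q, hq, h⟩ := hex
    refine ⟨p.1 - q.1, p, hp, q, hq, ?_⟩
    have h1 : p.2.1 = q.2.1 + t.1 := by rw [h]; rfl
    have h2 : p.2.2 = q.2.2 + t.2 := by rw [h]; rfl
    have h3 : F t p q (p.1 - q.1) = 0 := by
      simp only [F, h1, h2]; ring
    rw [h3]; positivity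
  obtain ⟨s, ⟨p₀, hp₀, q₀, hq₀, h₀⟩, hmax⟩ := Int.exists_greatest_of_bdd hbd hin
  obtain ⟨⟨p, q⟩, hpq, hmin⟩ := Finset.exists_min_image (P ×ˢ Q)
    (fun x : Z3 × Z3 => F t x.1 x.2 s) ⟨(p₀, q₀), Finset.mem_product.mpr ⟨hp₀, hq₀⟩⟩
  rw [Finset.mem_product] at hpq
  obtain ⟨hp, hq⟩ := hpq
  simp only at hp hq
  have hle : F t p q s ≤ ((R : ℤ) + 1) ^ 2 :=
    (hmin (p₀, q₀) (Finset.mem_product.mpr ⟨hp₀, hq₀⟩)).trans h₀
  have hnot : ∀ j : ℤ, 1 ≤ j → ∀ p' ∈ P, ∀ q' ∈ Q, ((R : ℤ) + 1) ^ 2 < F t p' q' (s + j) := by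
    intro j hj p' hp' q' hq'
    by_contra hc
    have := hmax (s + j) ⟨p', hp', q', hq', not_lt.mp hc⟩
    linarith
  have hsucc := hnot 1 le_rfl p hp q hq
  rw [F_succ] at hsucc
  refine ⟨s, p, q, hp, hq, ?_, ?_, ?_, ?_⟩
  · rw [F_eq]
    by_contra hc
    have hc' := not_lt.mp hc
    have h1 := (F_ge t p q s).trans hc'
    have h2 : q.1 + s - p.1 ≤ (R : ℤ) := abs_le_of_sq_le_sq' h1 (by positivity) |>.2
    nlinarith
  · rw [F_eq]; exact hle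
  · have e : (q + (s, t) - p).1 = q.1 + s - p.1 := rfl
    rw [e]
    by_contra hc
    have hc' : q.1 + s - p.1 ≤ -1 := by omega
    linarith
  · intro p' hp' q' hq' j hj
    rw [F_eq, F_eq']
    rcases eq_or_lt_of_le hj with h | h
    · subst h
      rw [add_zero]
      exact hmin (p', q') (Finset.mem_product.mpr ⟨hp', hq'⟩)
    · exact hle.trans (hnot j (by omega) p' hp' q' hq').le

end

end UB

end KN
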