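import Pool.Agent.W606.UB.Stm
import Pool.Agent.H246K2.STEP

set_option autoImplicit false

namespace KN.UB

open Finset Filter Topology
open scoped Classical

theorem Rp_fst (d' f' d : Dir) (hp : perp d' f') (hd : rt d' f' d = .xp) (N : Z3) :
    (Rp d' f' N).1 = dt N (vec d) := by
  obtain ⟨a, b, c⟩ := N
  cases d' <;> cases f' <;>
    first
      | exact absurd hp (by decide)
      | (cases d <;>
        first
          | exact absurd hd (by decide)
          | (simp only [Rp, dt, cr, vec, neg, Prod.smul_mk, Prod.mk_add_mk, smul_eq_mul,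
              mul_one, mul_zero, mul_neg, add_zero, zero_add]))

open K2STEP in
theorem step_main (h1 : T_gra) (h2 : T_rt) (h3 : T_rtc) (h4 : T_flip) : P_step := by
  intro T L R hL w hw x N hx h60
  obtain ⟨y, f, d, hyx, hdf, hB, hdir, hE⟩ := hL _ _ (h1 w hw) x N hx
  have hdf' : perp d (neg f) := by
    revert hdf; cases d <;> cases f <;> decide
  have R1 := rmD_of_big T L w y d f hdf hB
  have R2 := rmD_of_big' T L w y d f hdf hB
  rcases hE with hE | ⟨hE1, hE2, hyf⟩
  · rcases hE with ⟨l1, l2, hl, hl2⟩ | ⟨l1, l2, hl, hl2⟩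
    · obtain ⟨d', f', hp, hd, hf, -, hpos, hmem, hadd, hsap⟩ := frame h2 h3 d f hdf
      have hmap : w.map (rt d' f') = l1.map (rt d' f') ++ .zp :: l2.map (rt d' f') := by
        rw [hl, List.map_append, List.map_cons, hf]
      refine ⟨d', f', l1.map (rt d' f'), l2.map (rt d' f'), ⟨hp, ⟨?_, ?_⟩, ?_, Or.inl hmap⟩, ?_⟩
      · rw [← hmap]; exact (hsap w hw).1
      · rw [← hmap, hpos, hl2]
        exact rm_rot T L w y d f d' f' hmem hadd R1
      · rw [← hmap]; exact (hsap w hw).2
      · rw [hpos, hl2]
        exact ⟨near_Rp 6 d' f' hp _ _ (near_le (by norm_num) hyx), fun g => by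
          rw [Rp_fst d' f' d hp hd]; exact hdir g⟩
    · obtain ⟨d', f', hp, hd, hf, -, hpos, hmem, hadd, hsap⟩ := frame h2 h3 d (neg f) hdf'
      have hmap : w.map (rt d' f') = l1.map (rt d' f') ++ .zp :: l2.map (rt d' f') := by
        rw [hl, List.map_append, List.map_cons, hf]
      refine ⟨d', f', l1.map (rt d' f'), l2.map (rt d' f'), ⟨hp, ⟨?_, ?_⟩, ?_, Or.inl hmap⟩, ?_⟩
      · rw [← hmap]; exact (hsap w hw).1
      · rw [← hmap, hpos, hl2]
        exact rm_rot T L w _ d (neg f) d' f' hmem hadd R2
      · rw [← hmap]; exact (hsap w hw).2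
      · rw [hpos, hl2]
        exact ⟨near_Rp 6 d' f' hp _ _ (near_le (by norm_num) (near_add f hyx)), fun g => by
          rw [Rp_fst d' f' d hp hd]; exact hdir g⟩
  · have hq0 : y + vec (neg d) ≠ 0 := by
      intro h
      apply h60
      have hy : y = vec d := by
        rw [vec_neg] at h
        exact eq_of_sub_eq_zero (by rw [sub_eq_add_neg]; exact h)
      rw [hy] at hyx
      obtain ⟨a, b, c⟩ := x
      unfold near at *
      simp only [abs_le] at *
      cases d <;> simp only [vec, Prod.fst_zero, Prod.snd_zero] at * <;> omega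
    rcases hE1 with ⟨l1, l2, hl, hl2⟩ | ⟨l1, l2, hl, hl2⟩
    · have hl2' : pos (neg d :: l2) = y + vec (neg d) := by rw [pos, hl2]
      rcases hE2 with ⟨m1, m2, hm, hm2⟩ | ⟨m1, m2, hm, hm2⟩
      · -- first `neg d`, then `f`
        have hA : w = (l1 ++ []) ++ neg d :: l2 := by rw [List.append_nil]; exact hl
        have hA' : w = (m1 ++ [f]) ++ m2 := by rw [hm]; simp
        obtain ⟨-, hA2⟩ := uniq hw hA hA' (by rw [hl2', hm2]) (by rw [hl2']; exact hq0)
        subst hA2
        obtain ⟨d', f', hp, hd, hf, hdn, hpos, hmem, hadd, hsap⟩ := frame h2 h3 d f hdf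
        have hmap : w.map (rt d' f') = m1.map (rt d' f') ++ .zp :: .xm :: l2.map (rt d' f') := by
          rw [hm, List.map_append, List.map_cons, List.map_cons, hf, hdn]
        have hvz : Rp d f (vec .zp) = vec f := by simp [Rp, vec]
        have hnew : pos (l2.map (rt d' f')) + vec .zp ∉ path (w.map (rt d' f')) := by
          intro h
          have := hmem _ _ h
          rw [hpos, hl2, hadd, hvz] at this
          exact hyf this
        obtain ⟨g1, g2, g3⟩ := h4 (m1.map (rt d' f')) (l2.map (rt d' f')) .zp .xm (by decide)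
          (by rw [← hmap]; exact (hsap w hw).1) (by rw [← hmap]; exact hnew)
        have hl' : (m1.map (rt d' f') ++ [.xm]) ++ .zp :: l2.map (rt d' f') =
          m1.map (rt d' f') ++ .xm :: .zp :: l2.map (rt d' f') := by simp
        refine ⟨d', f', m1.map (rt d' f') ++ [.xm], l2.map (rt d' f'), ⟨hp, ⟨?_, ?_⟩, ?_,
          Or.inr (Or.inl ⟨_, rfl, hmap, hnew⟩)⟩, ?_⟩
        · rw [hl']; exact g1
        · rw [hl']
          refine rm_mono T L (w.map (rt d' f')) _ _ _ (by rw [hmap]; exact g3) ?_ ?_
          · simp [vec]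
          · rw [hpos, hl2]
            exact rm_rot T L w y d f d' f' hmem hadd R1
        · rw [hl']
          refine (hsap w hw).2.trans ?_
          rw [hmap]; exact g2
        · rw [hpos, hl2]
          exact ⟨near_Rp 6 d' f' hp _ _ (near_le (by norm_num) hyx), fun g => by
          rw [Rp_fst d' f' d hp hd]; exact hdir g⟩
      · exfalso
        have hm2' : pos (neg f :: m2) = y + vec (neg d) := by
          rw [pos, hm2, vec_neg f]; abel
        obtain ⟨-, hA2⟩ := uniq hw hl hm (by rw [hl2', hm2']) (by rw [hl2']; exact hq0)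
        have := (List.cons.inj hA2).1
        have h' : d = f := by rw [← neg_neg_dir d, this, neg_neg_dir]
        rw [h'] at hdf
        exact hdf rfl
    · rw [neg_neg_dir] at hl
      rcases hE2 with ⟨m1, m2, hm, hm2⟩ | ⟨m1, m2, hm, hm2⟩
      · exfalso
        have hA : w = (l1 ++ [d]) ++ l2 := by rw [hl]; simp
        have hA' : w = (m1 ++ [f]) ++ m2 := by rw [hm]; simp
        obtain ⟨hA1, -⟩ := uniq hw hA hA' (by rw [hl2, hm2]) (by rw [hl2]; exact hq0)
        have := List.append_inj_right' hA1 rfl
        have h' : d = f := (List.cons.inj this).1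
        rw [h'] at hdf
        exact hdf rfl
      · -- first `neg f`, then `d`
        have hm2' : pos (neg f :: m2) = y + vec (neg d) := by
          rw [pos, hm2, vec_neg f]; abel
        have hA : w = (l1 ++ [d]) ++ l2 := by rw [hl]; simp
        obtain ⟨-, hA2⟩ := uniq hw hA hm (by rw [hl2, hm2']) (by rw [hl2]; exact hq0)
        subst hA2
        obtain ⟨d', f', hp, hd, hf, hdn, hpos, hmem, hadd, hsap⟩ := frame h2 h3 d (neg f) hdf'
        have hmap : w.map (rt d' f') = l1.map (rt d' f') ++ .xp :: .zp :: m2.map (rt d' f') := by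
          rw [hl, List.map_append, List.map_cons, List.map_cons, hf, hd]
        have hvx : Rp d (neg f) (vec .xp) = vec d := by simp [Rp, vec]
        have hpd : pos (m2.map (rt d' f')) + vec .xp = Rp d' f' (y + vec f) := by
          obtain ⟨-, -, -, hadd2⟩ := h3 d' f' hp
          rw [hpos, hm2, show y + vec f = (y + vec (neg d) + vec f) + vec d by
            rw [vec_neg]; abel, hadd2 _ (vec d)]
          congr 1
          have := hpos [d]
          simp only [List.map_cons, List.map_nil, pos, zero_add, hd] at this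
          exact this
        have hnew : pos (m2.map (rt d' f')) + vec .xp ∉ path (w.map (rt d' f')) := by
          intro h
          have := hmem _ _ h
          rw [hpos, hadd, hvx, hm2, show y + vec (neg d) + vec f + vec d = y + vec f by
            rw [vec_neg]; abel] at this
          exact hyf this
        obtain ⟨g1, g2, g3⟩ := h4 (l1.map (rt d' f')) (m2.map (rt d' f')) .xp .zp (by decide)
          (by rw [← hmap]; exact (hsap w hw).1) (by rw [← hmap]; exact hnew)
        refine ⟨d', f', l1.map (rt d' f'), .xp :: m2.map (rt d' f'), ⟨hp, ⟨g1, ?_⟩, ?_,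
          Or.inr (Or.inr ⟨_, rfl, hmap, hnew⟩)⟩, ?_⟩
        · refine rm_mono T L (w.map (rt d' f')) _ _ _ (by rw [hmap]; exact g3) rfl ?_
          rw [show pos (Dir.xp :: m2.map (rt d' f')) = Rp d' f' (y + vec f) from hpd]
          exact rm_rot T L w _ d (neg f) d' f' hmem hadd R2
        · refine (hsap w hw).2.trans ?_
          rw [hmap]; exact g2
        · rw [show pos (Dir.xp :: m2.map (rt d' f')) = Rp d' f' (y + vec f) from hpd]
          exact ⟨near_Rp 6 d' f' hp _ _ (near_le (by norm_num) (near_add f hyx)), fun g => by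
          rw [Rp_fst d' f' d hp hd]; exact hdir g⟩

end KN.UB
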