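import Pool.Agent.W606.UB.Stm

set_option autoImplicit false

namespace KN.UB

open Finset Filter Topology

noncomputable section

namespace SubP

theorem path_xp (k : ℕ) : path (List.replicate k Dir.xp) =
    (List.range (k + 1)).map (fun i : ℕ => (((k : ℤ) - i, 0, 0) : Z3)) := by
  induction k with
  | zero => simp [path]; rfl
  | succ k ih =>
    rw [List.replicate_succ, path, ih, List.range_succ_eq_map (n := k + 1), List.map_cons,
      List.map_map]
    congr 1
    · have hp : ∀ k : ℕ, pos (List.replicate k Dir.xp) = ((k : ℤ), 0, 0) := by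
        intro k
        induction k with
        | zero => rfl
        | succ k ih => rw [List.replicate_succ, pos, ih]; simp [vec]
      rw [hp]
      simp [vec]
    · apply List.map_congr_left
      intro i _
      simp

theorem pos_xp (k : ℕ) : pos (List.replicate k Dir.xp) = ((k : ℤ), 0, 0) := by
  induction k with
  | zero => rfl
  | succ k ih => rw [List.replicate_succ, pos, ih]; simp [vec]

theorem pos_xm (k : ℕ) : pos (List.replicate k Dir.xm) = (-(k : ℤ), 0, 0) := by
  induction k with
  | zero => rfl
  | succ k ih =>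
    rw [List.replicate_succ, pos, ih]
    simp [vec]
    ring

theorem path_xm (k : ℕ) (w : List Dir) : path (List.replicate k Dir.xm ++ w) =
    (List.range k).map (fun i : ℕ => pos w + ((-((k : ℤ) - i), 0, 0) : Z3)) ++ path w := by
  induction k with
  | zero => simp
  | succ k ih =>
    rw [List.replicate_succ, List.cons_append, path, ih, List.range_succ_eq_map, List.map_cons,
      List.map_map, List.cons_append]
    congr 1
    · rw [pos_append, pos_xm]
      ext <;> simp [vec] <;> ring
    · congr 1
      apply List.map_congr_left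
      intro i _
      simp

theorem path_split (w : List Dir) : path w = (path w).dropLast ++ [0] := by
  conv_lhs => rw [← List.dropLast_append_getLast (path_ne_nil w)]
  rw [path_getLast]

theorem key (h : S_sub) (A B : List V) (p q r z : V) (ss : List ℝ)
    (h1 : ss.Pairwise (fun s t => s < t)) (h2 : ∀ s ∈ ss, 0 < s ∧ s < 1)
    (hs : Simple (A ++ p :: q :: (B ++ [r, z]))) :
    Same (A ++ p :: q :: (B ++ [r, z]))
      (A ++ p :: (ss.map (lerp p q) ++ q :: (B ++ r :: (ss.map (lerp r z) ++ [z])))) := by
  obtain ⟨a1, a2⟩ := h A (B ++ [r, z]) p q ss h1 h2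
  have b1 := a1.mp hs
  have b2 := a2 hs
  obtain ⟨c1, c2⟩ := h (A ++ p :: ss.map (lerp p q) ++ q :: B) [] r z ss h1 h2
  have e1 : A ++ p :: ss.map (lerp p q) ++ q :: (B ++ [r, z]) =
      (A ++ p :: ss.map (lerp p q) ++ q :: B) ++ r :: z :: [] := by simp
  have e2 : (A ++ p :: ss.map (lerp p q) ++ q :: B) ++ r :: (ss.map (lerp r z)) ++ z :: [] =
      (A ++ p :: (ss.map (lerp p q) ++ q :: (B ++ r :: (ss.map (lerp r z) ++ [z])))) := by simp
  rw [e1] at b1 b2
  have d := c2 b1
  rw [e2] at d
  exact Relation.EqvGen.trans _ _ _ b2 d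

def ss (S : ℕ) : List ℝ := (List.range S).map (fun i : ℕ => ((i : ℝ) + 1) / ((S : ℝ) + 1))

theorem ss_lt (S : ℕ) : (ss S).Pairwise (fun s t => s < t) := by
  unfold ss
  rw [List.pairwise_map]
  refine List.Pairwise.imp ?_ (List.pairwise_lt_range (n := S))
  intro a b hab
  have hS : (0 : ℝ) < (S : ℝ) + 1 := by positivity
  have : (a : ℝ) < b := by exact_mod_cast hab
  apply (div_lt_div_iff_of_pos_right hS).mpr
  linarith

theorem ss_mem (S : ℕ) : ∀ s ∈ ss S, 0 < s ∧ s < 1 := by
  intro s hs
  unfold ss at hs
  rw [List.mem_map] at hs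
  obtain ⟨i, hi, rfl⟩ := hs
  rw [List.mem_range] at hi
  have hS : (0 : ℝ) < (S : ℝ) + 1 := by positivity
  have : (i : ℝ) < S := by exact_mod_cast hi
  constructor
  · positivity
  · rw [div_lt_one hS]; linarith

theorem ss_map1 (S : ℕ) : (ss S).map (lerp (emb (0, 0, 1)) (emb ((S : ℤ) + 1, 0, 1))) =
    (List.range S).map (fun i : ℕ => emb ((i : ℤ) + 1, 0, 1)) := by
  unfold ss
  rw [List.map_map]
  apply List.map_congr_left
  intro i _
  have hS : ((S : ℝ) + 1) ≠ 0 := by positivity
  simp only [Function.comp, lerp, emb]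
  ext
  · simp
    field_simp
  · simp
  · simp

theorem ss_map2 (S : ℕ) : (ss S).map (lerp (emb ((S : ℤ) + 1, 0, 0)) (emb 0)) =
    (List.range S).map (fun i : ℕ => emb ((S : ℤ) - i, 0, 0)) := by
  unfold ss
  rw [List.map_map]
  apply List.map_congr_left
  intro i _
  have hS : ((S : ℝ) + 1) ≠ 0 := by positivity
  simp only [Function.comp, lerp, emb]
  ext
  · simp
    field_simp
    ring
  · simp
  · simp

theorem mv_jl (l1 v : List Dir) (S : ℕ) : mv (jl l1 v S) =
    (path l1.tail).map (fun p => emb (p + (0, 0, 1))) ++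
      ((path v).map (fun p => emb (p + ((S : ℤ) + 1, 0, 0))) ++ [emb 0]) := by
  unfold mv jl
  rw [List.map_append, List.map_append, List.map_map, List.map_map]
  congr 1
  · apply List.map_congr_left
    intro p _
    simp [emb]
  · congr 1
    · apply List.map_congr_left
      intro p _
      simp [emb]
      ring
    · simp [emb]
      rfl

end SubP

open SubP

theorem sub_main (h : S_sub) : P_sub := by
  intro l1 v hX S hS
  obtain ⟨hL, hR, -⟩ := hX
  have hv : pos v = (0, 0, 1) := by
    have := hR.2.1
    rw [pos] at this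
    have h' : pos v = - vec .zm := by
      rw [eq_neg_iff_add_eq_zero]; exact this
    rw [h']; rfl
  obtain ⟨d, v', rfl⟩ : ∃ d v', v = d :: v' := by
    cases v with
    | nil => exfalso; rw [pos] at hv; exact absurd hv (by decide)
    | cons d v' => exact ⟨d, v', rfl⟩
  obtain ⟨e, l', rfl⟩ : ∃ e l', l1 = e :: l' := by
    cases l1 with
    | nil => exfalso; have := hL.1; simp at this
    | cons d v' => exact ⟨d, v', rfl⟩
  set v := d :: v' with hvdef
  have hpv : path v = (0, 0, 1) :: ((path v').dropLast ++ [0]) := by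
    rw [← path_split, hvdef, path, ← hv]
    rfl
  rw [mv_jl] at hS ⊢
  have e0 : (path (e :: l').tail).map (fun p => emb (p + (0, 0, 1))) ++
      ((path v).map (fun p => emb (p + ((S : ℤ) + 1, 0, 0))) ++ [emb 0]) =
      ((path l').dropLast.map (fun p => emb (p + (0, 0, 1)))) ++ emb (0, 0, 1) ::
        emb ((S : ℤ) + 1, 0, 1) ::
        (((path v').dropLast.map (fun p => emb (p + ((S : ℤ) + 1, 0, 0)))) ++
          [emb ((S : ℤ) + 1, 0, 0), emb 0]) := by
    rw [hpv, List.tail_cons, path_split l', List.map_append]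
    simp
  rw [e0] at hS ⊢
  have hk := key h _ _ _ _ _ _ (ss S) (ss_lt S) (ss_mem S) hS
  rw [ss_map1, ss_map2] at hk
  have e1 : vl (join (hairL S (e :: l')) v (hairR S [])) =
      ((path l').dropLast.map (fun p => emb (p + (0, 0, 1)))) ++ emb (0, 0, 1) ::
        ((List.range S).map (fun i : ℕ => emb ((i : ℤ) + 1, 0, 1)) ++
        emb ((S : ℤ) + 1, 0, 1) ::
        (((path v').dropLast.map (fun p => emb (p + ((S : ℤ) + 1, 0, 0)))) ++
          emb ((S : ℤ) + 1, 0, 0) ::
          ((List.range S).map (fun i : ℕ => emb ((S : ℤ) - i, 0, 0)) ++ [emb 0]))) := by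
    have w0 : (join (hairL S (e :: l')) v (hairR S [])).tail =
        l' ++ (List.replicate (S + 1) Dir.xm ++ (v ++ List.replicate (S + 1) Dir.xp)) := by
      simp only [join, hairL, hairR, List.append_nil]
      rw [List.replicate_succ' , List.replicate_succ]
      simp
    have w1 : pos (v ++ List.replicate (S + 1) Dir.xp) = (((S : ℤ) + 1, 0, 1) : Z3) := by
      rw [pos_append, hv, pos_xp]
      simp
    have w2 : pos (List.replicate (S + 1) Dir.xm ++ (v ++ List.replicate (S + 1) Dir.xp)) =
        ((0, 0, 1) : Z3) := by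
      rw [pos_append, w1, pos_xm]
      simp
    unfold vl
    rw [w0, path_append, w2, path_xm, w1, path_append, pos_xp, path_xp]
    have p1 : (List.range (S + 1)).map (fun i : ℕ => (((S : ℤ) + 1, 0, 1) : Z3) +
        ((-(((S + 1 : ℕ) : ℤ) - i), 0, 0) : Z3)) =
        ((0, 0, 1) : Z3) :: (List.range S).map (fun i : ℕ => (((i : ℤ) + 1, 0, 1) : Z3)) := by
      rw [List.range_succ_eq_map (n := S), List.map_cons, List.map_map]
      congr 1
      · simp
      · apply List.map_congr_left
        intro i _
        simp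
    have p2 : ((0, 0, 1) :: ((path v').dropLast ++ [0]) : List Z3).dropLast =
        (0, 0, 1) :: (path v').dropLast := by
      rw [← List.cons_append, List.dropLast_concat]
    have p3 : (List.range (S + 1 + 1)).map (fun i : ℕ => ((((S + 1 : ℕ) : ℤ) - i, 0, 0) : Z3)) =
        (((S : ℤ) + 1, 0, 0) : Z3) ::
          ((List.range S).map (fun i : ℕ => (((S : ℤ) - i, 0, 0) : Z3)) ++ [0]) := by
      rw [List.range_succ (n := S + 1), List.range_succ_eq_map (n := S), List.map_append,
        List.map_cons, List.map_map, List.cons_append]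
      congr 1
      · simp
    rw [hpv, p1, p2, p3]
    simp [List.map_append, List.map_map, Function.comp_def]
  rw [e1]
  exact hk

end

end KN.UB
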