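import Pool.Agent.W606.UB.Asm
import Pool.Agent.W606.UB.Sap
import Pool.Agent.W606.UB.Mono
import Pool.Agent.W606.UB.Real
import Pool.Agent.W606.UB.Sub
import Pool.Agent.W606.UB.Join
import Pool.Agent.W606.UB.LLd
import Pool.Agent.W606.UB.Step
import Pool.Agent.W606.UB.Block
import Pool.Agent.W606.UB.DockS
import Pool.Agent.W606.UB.Dock
import Pool.Agent.W606.UB.Slide
import Pool.Agent.W606.UB.Geo
import Pool.Agent.W606.UB.Glue
import Pool.Agent.W606.UB.Count
import Pool.Agent.W606.UB.Mult
import Pool.Agent.W606.UB.Proj
import Pool.Agent.W606.UB.Ana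

/-!
# Upper bound for the number of unknotted polygons: all parts
-/

set_option autoImplicit false

namespace KN

namespace UB

open Finset Filter Topology

theorem f_mono : P_mono := mono_main S_lin_proof
theorem f_sub : P_sub := sub_main c_sub
theorem f_join : P_join :=
  join_main sap_main f_mono RealW177.real_main f_sub T_hair_proof S_simple_proof T_rt_proof
    T_rtc_proof c_words GEN.u_csum
theorem f_LLd : P_LLd := LLd_main T_frame_proof T_room_proof
theorem f_step : P_step := step_main T_gra_proof T_rt_proof T_rtc_proof T_flip_proof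
theorem f_block : P_block := P_block_main c_local
theorem f_dockS : P_dockS := dockS_main d_T1 c_words husame
theorem f_dock : P_dock :=
  Dk.dock_main f_block f_step f_dockS T_rt_proof T_rtc_proof c_words
theorem f_glue : P_glue :=
  glue_main f_dock f_LLd slide_main geo_main f_join sap_main T_rt_proof T_rtc_proof c_words
theorem f_mult : P_mult := mult_main c_words
theorem f_proj : P_proj := proj_main T_LW_proof T_rt_proof T_rtc_proof

theorem gr_one : 1 < gr U := by
  have hU : KClass U := GEN.kt_class sq
  have hne : ∃ w, SAP w ∧ U w := ⟨sqw, c_sq.2.1, Or.inl (Same.refl _)⟩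
  have := gr_bounds U hU hne
  linarith [this.1]

theorem f_ana : P_ana :=
  ana_main667 (fun τ hτ => GEN.upper S_five_proof U (by linarith [gr_one]) τ hτ) gr_one

theorem main : ∃ C : ℝ, ∀ n : ℕ, 1 ≤ n → pq U n ≤ C * (n : ℝ) ^ (-(2 / 3) : ℝ) * gr U ^ n :=
  compose f_glue count_main f_mult f_proj f_ana

end UB

end KN
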