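import Pool.Agent.H246K2.Stubs

/-!
# Upper bound for the number of unknotted polygons: `p_n ≤ C n ^ (-2/3) μ₀ ^ n`
The statements of the tasks (as propositions `P_...`).
Words: the LAST letter of the list is the FIRST step.
-/

set_option autoImplicit false

namespace KN

namespace UB

open Finset Filter Topology
open scoped Classical

noncomputable section

/-- the left polygon `l1 ++ [zp]` and the right polygon `zm :: v` are separated in direction `xp`: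
on every line parallel to the first axis all vertices of the left polygon are to the left of all
vertices of the right polygon (whose base point is put at `(1,0,0)`) -/
structure XS (l1 v : List Dir) : Prop where
  left : SAP (l1 ++ [.zp])
  right : SAP (.zm :: v)
  sep : ∀ p ∈ path (l1 ++ [.zp]), ∀ q ∈ path v, p.2 = q.2 → p.1 < 1 + q.1

/-- A1: the join is a polygon -/
def P_sap : Prop := ∀ l1 v : List Dir, XS l1 v → SAP (join l1 v [])

/-- A2: the right polygon is moved to the right -/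
def P_shift : Prop := ∀ l1 v : List Dir, XS l1 v → ∀ S : ℕ,
  Same (vl (join l1 v [])) (vl (join (hairL S l1) v (hairR S [])))

/-- the vertices of `join l1 v []` with the displacements `0` (left polygon) and `S` (right polygon)
in direction `xp` -/
def jl (l1 v : List Dir) (S : ℝ) : List (V × ℝ) :=
  (path l1.tail).map (fun p => (emb (p + (0, 0, 1)), (0 : ℝ))) ++
    ((path v).map (fun p => (emb (p + (1, 0, 0)), S)) ++ [((0 : V), (0 : ℝ))])

/-- all vertices are moved in direction `xp` -/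
def mv (l : List (V × ℝ)) : List V := l.map (fun p => (p.1.1 + p.2, p.1.2))

/-- cyclically consecutive pairs -/
def cyc (l : List (V × ℝ)) : List ((V × ℝ) × (V × ℝ)) := l.zip (l.tail ++ l.take 1)

/-- the displacement is monotone on every line parallel to the first axis -/
def Mono (l : List (V × ℝ)) : Prop := ∀ e ∈ cyc l, ∀ e' ∈ cyc l, ∀ u u' : ℝ, 0 ≤ u → u < 1 →
  0 ≤ u' → u' < 1 → (lerp e.1.1 e.2.1 u).2 = (lerp e'.1.1 e'.2.1 u').2 →
  (lerp e.1.1 e.2.1 u).1 < (lerp e'.1.1 e'.2.1 u').1 →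
  (1 - u) * e.1.2 + u * e.2.2 ≤ (1 - u') * e'.1.2 + u' * e'.2.2

/-- A2a: a monotone displacement -/
def P_mono : Prop := ∀ l : List (V × ℝ), Simple (l.map Prod.fst) → Mono l →
  Same (l.map Prod.fst) (mv l) ∧ Simple (mv l)

/-- A2b: the vertices of the join and monotonicity -/
def P_real : Prop := ∀ l1 v : List Dir, XS l1 v → ∀ S : ℝ, 0 ≤ S →
  (jl l1 v S).map Prod.fst = vl (join l1 v []) ∧ Mono (jl l1 v S)

/-- A2c: subdivision of the two long edges -/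
def P_sub : Prop := ∀ l1 v : List Dir, XS l1 v → ∀ S : ℕ, Simple (mv (jl l1 v S)) →
  Same (mv (jl l1 v S)) (vl (join (hairL S l1) v (hairR S [])))

/-- A3: the join of unknotted polygons is unknotted -/
def P_join : Prop := ∀ l1 v : List Dir, XS l1 v → U (l1 ++ [.zp]) → U (.zm :: v) →
  U (join l1 v [])

/-- the local statement with information on the direction -/
def LLd (T L R : ℕ) : Prop := ∀ (P : Set Z3) (E : Z3 → Dir → Prop), Gra P E →
  ∀ x N : Z3, Cont R P x N → ∃ (y : Z3) (f d : Dir), near 3 y x ∧ perp d f ∧ Big T L P y f d ∧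
    (∀ g : Dir, dt N (vec g) ≤ dt N (vec d) + 700) ∧
    (E y f ∨ (E y (neg d) ∧ E (y + vec (neg d)) f ∧ y + vec f ∉ P))

/-- B1: the local lemma -/
def P_LLd : Prop := ∀ T L : ℕ, 2 * L + 4 ≤ T → ∀ R₀ : ℕ, ∃ R : ℕ, R₀ ≤ R ∧ 1 ≤ R ∧ LLd T L R

/-- B2: near every contact there is a good spot -/
def P_step : Prop := ∀ T L R : ℕ, LLd T L R → ∀ w : List Dir, SAP w → ∀ x N : Z3,
  Cont R {p | p ∈ path w} x N → ¬ near 6 x 0 →
  ∃ (d f : Dir) (l1 l2 : List Dir), Gd T L w d f l1 l2 ∧ near 6 (pos l2) (Rp d f x) ∧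
    ∀ g : Dir, dt N (vec g) ≤ (Rp d f N).1 + 700

/-- C: a universal unknotted block: for every direction `s ≠ xm` and every letter `z ⟂ s` it
traverses an edge `z` in its extreme face in direction `s` -/
def P_block : Prop := ∃ v : List Dir, SmR 9 v ∧ U (.zm :: v) ∧ ∀ s z : Dir, perp s z → s ≠ .xm →
  ∃ v1 v2 : List Dir, v = v1 ++ z :: v2 ∧ ∀ p ∈ path v, dt p (vec s) ≤ dt (pos v2) (vec s)

/-- the dock: near a contact with a normal `N`, `0 ≤ N.1`, the polygon `w` can be enlarged such that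
the new polygon has an edge `zp` which looks in direction `xp`.  `e` is the position (in the frame of
`w`) of the lower end point of this edge -/
def Dock (T κ lam β R : ℕ) : Prop := ∀ w : List Dir, SAP w → U w → lam ≤ w.length →
  ∀ x N : Z3, Cont R {p | p ∈ path w} x N → 0 ≤ N.1 →
  ∃ (A B C S : List Dir) (k : ℕ) (e : Z3) (d : Dir),
    k < w.length ∧ A.length ≤ lam ∧ B.length ≤ lam ∧ w.rotate k = C ++ S ∧
    (A ++ S ++ B).length + 1 = w.length + β ∧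
    SAP ((A ++ S ++ B) ++ [.zp]) ∧ U ((A ++ S ++ B) ++ [.zp]) ∧
    pos (w.drop k) = e + (0, 0, 1) + pos B ∧
    (∀ g : Dir, dt N (vec g) ≤ dt N (vec d) + 700) ∧
    near κ e (x + (T : ℤ) • vec d) ∧
    ∀ p ∈ path ((A ++ S ++ B) ++ [.zp]), p + e ∈ path w ∨
      (p.1 ≤ 0 ∧ ∃ i : ℤ, 0 ≤ i ∧ i ≤ T + κ ∧ near κ (p + e) (x + i • vec d))

/-- D1: the dock in the standard frame -/
def P_dockS : Prop := ∀ (v v1 v2 : List Dir) (s z : Dir), SmR 9 v → U (.zm :: v) → perp s z →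
  s ≠ .xm → v = v1 ++ z :: v2 → (∀ p ∈ path v, dt p (vec s) ≤ dt (pos v2) (vec s)) →
  ∀ (T : ℕ) (l1 l2 : List Dir), Spot T 9 l1 l2 → U (l1 ++ .zp :: l2) →
  ∀ A B W : List Dir, ∀ e : Z3, A = v2 ++ List.replicate (T + 1) .xp →
    B = List.replicate (T + 1) .xm ++ v1 → e = pos l2 + ((T : ℤ) + 1, 0, 0) + pos v2 →
    W = (A ++ (l2 ++ l1) ++ B) ++ [z] →
  SAP W ∧ U W ∧ ∀ p ∈ path W, p + e ∈ path (l1 ++ .zp :: l2) ∨ (dt p (vec s) ≤ 0 ∧
    ∃ i : ℤ, 0 ≤ i ∧ i ≤ T + 12 ∧ near 12 (p + e) (pos l2 + (i, 0, 0)))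

/-- D: docks exist -/
def P_dock : Prop := ∃ κ : ℕ, ∀ T : ℕ, κ ≤ T → ∃ lam β : ℕ, ∀ R : ℕ, 2000 ≤ R → LLd T 9 R →
  Dock T κ lam β R

/-- E: sliding: `Q` comes from the right along the first axis until its distance to `P` is at most
`R + 1` -/
def P_slide : Prop := ∀ (R : ℕ) (P Q : Finset Z3) (t : ℤ × ℤ), (∃ p ∈ P, ∃ q ∈ Q, p.2 = q.2 + t) →
  ∃ (s : ℤ) (p q : Z3), p ∈ P ∧ q ∈ Q ∧
    (R : ℤ) ^ 2 < dt (q + (s, t) - p) (q + (s, t) - p) ∧
    dt (q + (s, t) - p) (q + (s, t) - p) ≤ ((R : ℤ) + 1) ^ 2 ∧ 0 ≤ (q + (s, t) - p).1 ∧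
    ∀ p' ∈ P, ∀ q' ∈ Q, ∀ j : ℤ, 0 ≤ j →
      dt (q + (s, t) - p) (q + (s, t) - p) ≤
        dt (q' + (s, t) + (j, 0, 0) - p') (q' + (s, t) + (j, 0, 0) - p')

/-- F: the inequalities -/
def P_geo : Prop := ∀ κ : ℕ, ∃ T : ℕ, κ ≤ T ∧ 22 ≤ T ∧ ∃ R₀ : ℕ, ∀ R : ℕ, R₀ ≤ R →
  ∀ (N : Z3) (d d' : Dir) (a b : Z3), (R : ℤ) ^ 2 < dt N N →
    dt N N ≤ ((R : ℤ) + 1) ^ 2 → (∀ g : Dir, dt N (vec g) ≤ dt N (vec d) + 700) →
    (∀ g : Dir, dt N (vec g) ≤ - dt N (vec d') + 700) → near κ a 0 → near κ b 0 →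
    ∀ s : Z3, s = N + (T : ℤ) • vec d' - (T : ℤ) • vec d + b - a - (1, 0, 0) →
      dt s s + 4 * R + 100 < dt N N ∧ ∀ i : ℤ, 0 ≤ i → i ≤ T + κ → ∀ δ : Z3, near κ δ 0 →
        dt (s + i • vec d + δ) (s + i • vec d + δ) < dt N N ∧
        dt (s - i • vec d' - δ) (s - i • vec d' - δ) < dt N N

/-- the joins of two polygons of length `n` at the base point -/
def J (β lam n : ℕ) (W : List Dir) : Prop := W.length = 2 * (n + β) ∧
  pos (W.drop (n + β - 1)) = (0, 0, 1) ∧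
  ∀ i j : ℕ, lam ≤ i → i + lam ≤ n + β - 1 → n + β + lam ≤ j → j + lam ≤ 2 * (n + β) - 1 →
    1 < dt (pos (W.drop i) - pos (W.drop j)) (pos (W.drop i) - pos (W.drop j))

/-- the word of the join -/
def jw (A S B A' S' B' : List Dir) : List Dir := join (A ++ S ++ B) (A' ++ S' ++ B') []

/-- two polygons of length `n` and a relative position `t` give a join -/
def Glue (β lam K₀ : ℕ) : Prop := ∀ n : ℕ, lam ≤ n → ∀ w1 ∈ K U n, ∀ w2 ∈ K U n,
  ∀ t : ℤ × ℤ, t ∈ ((path w1).map Prod.snd).toFinset →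
  ∃ (A B C S A' B' C' S' : List Dir) (k k' : ℕ), k < n ∧ k' < n ∧
    A.length ≤ lam ∧ B.length ≤ lam ∧ A'.length ≤ lam ∧ B'.length ≤ lam ∧
    w1.rotate k = C ++ S ∧ w2.rotate k' = C' ++ S' ∧
    (A ++ S ++ B).length + 1 = n + β ∧ (A' ++ S' ++ B').length + 1 = n + β ∧
    jw A S B A' S' B' ∈ K U (2 * (n + β)) ∧ J β lam n (jw A S B A' S' B') ∧
    near K₀ (0, t) (0, (pos (w1.drop k) - (0, 0, 1) - pos B - pos (w2.drop k') + (1, 0, 0) +
      pos B').2)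

/-- G: the main construction -/
def P_glue : Prop := ∃ β lam K₀ : ℕ, Glue β lam K₀

/-- H: counting the preimages -/
def P_count : Prop := ∀ β lam K₀ : ℕ, Glue β lam K₀ → ∃ C : ℕ, ∀ n : ℕ, lam ≤ n →
  (∑ w ∈ K U n, ((path w).map Prod.snd).toFinset.card) * a U n ≤
    C * n ^ 2 * ((K U (2 * (n + β))).filter (J β lam n)).card

/-- I: a polygon is a join at few of its vertices -/
def P_mult : Prop := ∀ β lam : ℕ, ∃ C N₀ : ℕ, ∀ n : ℕ, N₀ ≤ n →
  n * ((K U (2 * (n + β))).filter (J β lam n)).card ≤ C * a U (2 * (n + β))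

/-- J: projections -/
def P_proj : Prop := ∀ n : ℕ, 4 ≤ n → (n : ℝ) ^ (2 / 3 : ℝ) * a U n ≤
  3 * ∑ w ∈ K U n, (((path w).map Prod.snd).toFinset.card : ℝ)

/-- K: analysis -/
def P_ana : Prop := ∀ (β N₀ : ℕ) (c : ℝ), 0 < c →
  (∀ n : ℕ, N₀ ≤ n → c * (n : ℝ) ^ (2 / 3 : ℝ) * (a U n : ℝ) ^ 2 ≤ n * a U (2 * (n + β))) →
  ∃ C : ℝ, ∀ n : ℕ, 1 ≤ n → pq U n ≤ C * (n : ℝ) ^ (-(2 / 3) : ℝ) * gr U ^ n

end

end UB

end KN
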